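import Pool.Agent.Lib.SRHT.Net

/-!
The convolution structure of the rerandomized SRHT.
-/

open Finset Matrix
open scoped BigOperators

namespace SRHT

/-- a symmetric nondegenerate `±1`-valued bicharacter on a finite group of exponent two -/
structure Bichar (G : Type*) [AddCommGroup G] [Fintype G] [DecidableEq G] (χ : G → G → ℝ) : Prop where
  add : ∀ a l l', χ a (l + l') = χ a l * χ a l'
  symm : ∀ a l, χ a l = χ l a
  sq : ∀ a l, χ a l ^ 2 = 1
  sum_ne : ∀ a, a ≠ 0 → ∑ l, χ a l = 0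
  two : ∀ a : G, a + a = 0

variable {G : Type*} [AddCommGroup G] [Fintype G] [DecidableEq G] {χ : G → G → ℝ}

lemma Bichar.zero (h : Bichar G χ) (a : G) : χ a 0 = 1 := by
  have h1 := h.add a 0 0
  rw [add_zero, ← _root_.sq, h.sq] at h1
  exact h1

lemma Bichar.sum (h : Bichar G χ) (a : G) : ∑ l, χ a l = if a = 0 then (Fintype.card G : ℝ) else 0 := by
  split_ifs with ha
  · subst ha
    have : ∀ l, χ 0 l = 1 := fun l => by rw [h.symm, h.zero]
    simp [this]
  · exact h.sum_ne a ha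

/-- the transformed vector `F D₁ x` -/
noncomputable def yv (χ : G → G → ℝ) (u : G → ℝ) : G → ℝ :=
  fun l => (∑ j, χ l j * u j) / Real.sqrt (Fintype.card G)

/-- autocorrelation -/
def corr (u : G → ℝ) (a : G) : ℝ := ∑ j, u j * u (j + a)

lemma card_pos_real [Nonempty G] : (0 : ℝ) < Fintype.card G := by exact_mod_cast Fintype.card_pos

lemma sum_chi_y (h : Bichar G χ) (u : G → ℝ) (a : G) :
    ∑ l, χ a l * yv χ u l ^ 2 = corr u a := by
  have hn : (0 : ℝ) < Fintype.card G := card_pos_real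
  have hs : Real.sqrt (Fintype.card G) ^ 2 = Fintype.card G := Real.sq_sqrt hn.le
  unfold yv corr
  have h1 : ∀ l, χ a l * ((∑ j, χ l j * u j) / Real.sqrt (Fintype.card G)) ^ 2
      = (∑ j, ∑ j', (u j * u j') * χ (a + j + j') l) / Fintype.card G := by
    intro l
    rw [div_pow, hs, _root_.sq, Finset.sum_mul_sum, ← mul_div_assoc, Finset.mul_sum]
    congr 1
    refine Finset.sum_congr rfl fun j _ => ?_
    rw [Finset.mul_sum]
    refine Finset.sum_congr rfl fun j' _ => ?_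
    rw [h.symm (a + j + j') l, h.add, h.add, h.symm a l]
    ring
  simp_rw [h1]
  rw [← Finset.sum_div, Finset.sum_comm]
  rw [Finset.sum_div]
  refine Finset.sum_congr rfl fun j _ => ?_
  rw [Finset.sum_comm]
  simp_rw [← Finset.mul_sum, h.sum]
  have h2 : ∀ j', a + j + j' = 0 ↔ j' = j + a := by
    intro j'
    constructor
    · intro h3
      have h4 := congrArg (fun z => z + (j + a)) h3
      simp only [zero_add] at h4
      have h5 : a + j + j' + (j + a) = j' + ((j + j) + (a + a)) := by abel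
      rw [h5, h.two, h.two, add_zero, add_zero] at h4
      exact h4
    · intro h3
      rw [h3]
      have : a + j + (j + a) = (a + a) + (j + j) := by abel
      rw [this, h.two, h.two, add_zero]
  simp_rw [h2, mul_ite, mul_zero]
  rw [Finset.sum_ite_eq' Finset.univ (j + a), if_pos (Finset.mem_univ _)]
  field_simp

lemma nsq_yv (h : Bichar G χ) (u : G → ℝ) : nsq (yv χ u) = nsq u := by
  have h1 := sum_chi_y h u 0
  have h2 : ∀ l, χ 0 l = 1 := fun l => by rw [h.symm, h.zero]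
  simp_rw [h2, one_mul] at h1
  unfold nsq
  rw [h1]
  unfold corr
  simp [_root_.sq]

/-- the matrix acting on the signs `d₂` -/
noncomputable def Am (χ : G → G → ℝ) (T : Finset G) (k : ℝ) (y : G → ℝ) : Matrix G G ℝ :=
  fun s l => if s ∈ T then χ s l * y l / Real.sqrt k else 0

lemma Am_gram (h : Bichar G χ) (T : Finset G) (k : ℝ) (hk : 0 < k) (u : G → ℝ) (s s' : G) :
    (Am χ T k (yv χ u) * (Am χ T k (yv χ u))ᵀ) s s' =
      if s ∈ T ∧ s' ∈ T then corr u (s + s') / k else 0 := by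
  have hs : Real.sqrt k * Real.sqrt k = k := Real.mul_self_sqrt hk.le
  rw [Matrix.mul_apply]
  simp_rw [Matrix.transpose_apply]
  unfold Am
  by_cases h1 : s ∈ T
  · by_cases h2 : s' ∈ T
    · rw [if_pos ⟨h1, h2⟩]
      simp only [h1, h2, if_true]
      rw [← sum_chi_y h u (s + s'), Finset.sum_div]
      refine Finset.sum_congr rfl fun l _ => ?_
      rw [h.symm (s + s') l, h.add, h.symm l s, h.symm l s']
      rw [div_mul_div_comm, hs]; ring
    · rw [if_neg (fun h3 => h2 h3.2)]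
      simp [h2]
  · rw [if_neg (fun h3 => h1 h3.1)]
    simp [h1]

/-- sum of squares of the off-diagonal entries -/
noncomputable def Roff (T : Finset G) (u : G → ℝ) : ℝ :=
  ∑ s ∈ T, ∑ s' ∈ T.erase s, corr u (s + s') ^ 2

lemma corr_zero (u : G → ℝ) : corr u 0 = nsq u := by
  unfold corr nsq; simp [_root_.sq]

lemma fr_Am (h : Bichar G χ) (T : Finset G) (k : ℝ) (hk : 0 < k) (hT : (T.card : ℝ) = k) (u : G → ℝ) :
    fr (Am χ T k (yv χ u)) = nsq u := by
  have h1 : fr (Am χ T k (yv χ u)) = ∑ s, (Am χ T k (yv χ u) * (Am χ T k (yv χ u))ᵀ) s s := by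
    have := trace_eq ((Am χ T k (yv χ u))ᵀ)
    rw [Matrix.transpose_transpose, fr_transpose] at this
    exact this.symm
  rw [h1]
  simp_rw [Am_gram h T k hk, and_self, h.two, corr_zero]
  rw [← Finset.sum_filter]
  simp only [Finset.filter_mem_eq_inter, Finset.univ_inter]
  rw [Finset.sum_const, nsmul_eq_mul, hT]
  field_simp

lemma fr_gram_Am (h : Bichar G χ) (T : Finset G) (k : ℝ) (hk : 0 < k) (hT : (T.card : ℝ) = k) (u : G → ℝ) :
    fr ((Am χ T k (yv χ u))ᵀ * Am χ T k (yv χ u)) = (k * nsq u ^ 2 + Roff T u) / k ^ 2 := by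
  rw [fr_gram]
  unfold fr
  simp_rw [Am_gram h T k hk]
  have h1 : ∀ s s' : G, (if s ∈ T ∧ s' ∈ T then corr u (s + s') / k else 0) ^ 2
      = if s ∈ T then (if s' ∈ T then corr u (s + s') ^ 2 / k ^ 2 else 0) else 0 := by
    intro s s'
    by_cases h1 : s ∈ T <;> by_cases h2 : s' ∈ T <;> simp [h1, h2, div_pow]
  simp_rw [h1]
  have h2 : ∀ s : G, (∑ s', if s ∈ T then (if s' ∈ T then corr u (s + s') ^ 2 / k ^ 2 else 0) else 0)
      = if s ∈ T then (∑ s' ∈ T, corr u (s + s') ^ 2 / k ^ 2) else 0 := by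
    intro s
    by_cases h1 : s ∈ T
    · simp only [h1, if_true]
      rw [← Finset.sum_filter]
      simp only [Finset.filter_mem_eq_inter, Finset.univ_inter]
    · simp [h1]
  simp_rw [h2]
  rw [← Finset.sum_filter]
  simp only [Finset.filter_mem_eq_inter, Finset.univ_inter]
  unfold Roff
  have h3 : ∀ s ∈ T, (∑ s' ∈ T, corr u (s + s') ^ 2 / k ^ 2)
      = nsq u ^ 2 / k ^ 2 + (∑ s' ∈ T.erase s, corr u (s + s') ^ 2) / k ^ 2 := by
    intro s hs
    rw [← Finset.add_sum_erase T _ hs, h.two, corr_zero, Finset.sum_div]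
  rw [Finset.sum_congr rfl h3, Finset.sum_add_distrib, Finset.sum_const, nsmul_eq_mul, hT,
    ← Finset.sum_div, add_div]
  field_simp

lemma OB_Am (h : Bichar G χ) (T : Finset G) (k : ℝ) (hk : 0 < k) (u : G → ℝ)
    (hu : nsq u ≤ 1) (hR : Roff T u ≤ 1) :
    OB (Am χ T k (yv χ u)) (2 / k) := by
  suffices h0 : OB ((Am χ T k (yv χ u))ᵀ) (2 / k) by
    have := h0.transpose
    rwa [Matrix.transpose_transpose] at this
  intro v
  rw [nsq_mulVec_eq, Matrix.transpose_transpose]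
  simp_rw [Am_gram h T k hk]
  have h1 : ∀ s s' : G, (if s ∈ T ∧ s' ∈ T then corr u (s + s') / k else 0) * (v s * v s')
      = if s ∈ T then (if s' ∈ T then corr u (s + s') / k * (v s * v s') else 0) else 0 := by
    intro s s'
    by_cases h1 : s ∈ T <;> by_cases h2 : s' ∈ T <;> simp [h1, h2]
  simp_rw [h1]
  have h2 : ∀ s : G, (∑ s', if s ∈ T then (if s' ∈ T then corr u (s + s') / k * (v s * v s') else 0) else 0)
      = if s ∈ T then (∑ s' ∈ T, corr u (s + s') / k * (v s * v s')) else 0 := by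
    intro s
    by_cases h1 : s ∈ T
    · simp only [h1, if_true]
      rw [← Finset.sum_filter]
      simp only [Finset.filter_mem_eq_inter, Finset.univ_inter]
    · simp [h1]
  simp_rw [h2]
  rw [← Finset.sum_filter]
  simp only [Finset.filter_mem_eq_inter, Finset.univ_inter]
  have h3 : ∀ s ∈ T, (∑ s' ∈ T, corr u (s + s') / k * (v s * v s'))
      = nsq u / k * v s ^ 2 + (∑ s' ∈ T.erase s, corr u (s + s') * (v s * v s')) / k := by
    intro s hs
    rw [← Finset.add_sum_erase T _ hs, h.two, corr_zero, Finset.sum_div, _root_.sq]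
    congr 1
    refine Finset.sum_congr rfl fun s' _ => ?_
    ring
  rw [Finset.sum_congr rfl h3, Finset.sum_add_distrib, ← Finset.mul_sum, ← Finset.sum_div]
  -- diagonal part
  have hv : ∑ s ∈ T, v s ^ 2 ≤ nsq v :=
    Finset.sum_le_sum_of_subset_of_nonneg (Finset.subset_univ _) (fun _ _ _ => sq_nonneg _)
  have hv0 : 0 ≤ ∑ s ∈ T, v s ^ 2 := Finset.sum_nonneg fun _ _ => sq_nonneg _
  -- off-diagonal part
  have h4 : (∑ s ∈ T, ∑ s' ∈ T.erase s, corr u (s + s') * (v s * v s')) ^ 2 ≤ nsq v ^ 2 := by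
    have h5 : ∀ f : G → G → ℝ, ∑ s ∈ T, ∑ s' ∈ T.erase s, f s s' = ∑ x ∈ T.sigma (fun s => T.erase s), f x.1 x.2 := by
      intro f; rw [Finset.sum_sigma]
    rw [h5]
    refine (Finset.sum_mul_sq_le_sq_mul_sq _ _ _).trans ?_
    rw [← h5 (fun s s' => corr u (s + s') ^ 2), ← h5 (fun s s' => (v s * v s') ^ 2)]
    have h6 : ∑ s ∈ T, ∑ s' ∈ T.erase s, (v s * v s') ^ 2 ≤ nsq v ^ 2 := by
      have h7 : ∀ s ∈ T, ∑ s' ∈ T.erase s, (v s * v s') ^ 2 ≤ v s ^ 2 * nsq v := by
        intro s _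
        simp_rw [mul_pow]
        rw [← Finset.mul_sum]
        exact mul_le_mul_of_nonneg_left (Finset.sum_le_sum_of_subset_of_nonneg (Finset.subset_univ _)
          (fun _ _ _ => sq_nonneg _)) (sq_nonneg _)
      refine (Finset.sum_le_sum h7).trans ?_
      rw [← Finset.sum_mul, _root_.sq (nsq v)]
      exact mul_le_mul_of_nonneg_right hv (nsq_nonneg v)
    calc (∑ s ∈ T, ∑ s' ∈ T.erase s, corr u (s + s') ^ 2) * (∑ s ∈ T, ∑ s' ∈ T.erase s, (v s * v s') ^ 2)
        ≤ 1 * nsq v ^ 2 := mul_le_mul hR h6 (Finset.sum_nonneg fun _ _ => Finset.sum_nonneg fun _ _ => sq_nonneg _) zero_le_one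
      _ = _ := one_mul _
  have h5 : (∑ s ∈ T, ∑ s' ∈ T.erase s, corr u (s + s') * (v s * v s')) ≤ nsq v :=
    abs_le_of_sq_le_sq' h4 (nsq_nonneg v) |>.2
  have h6 : nsq u / k * ∑ s ∈ T, v s ^ 2 ≤ 1 / k * nsq v := by
    apply mul_le_mul _ hv hv0 (by positivity)
    exact div_le_div_of_nonneg_right hu hk.le
  have h7 : (∑ s ∈ T, ∑ s' ∈ T.erase s, corr u (s + s') * (v s * v s')) / k ≤ nsq v / k :=
    div_le_div_of_nonneg_right h5 hk.le
  calc _ ≤ 1 / k * nsq v + nsq v / k := add_le_add h6 h7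
    _ = _ := by ring

/-- tail for a fixed vector -/
lemma tail_fixed (h : Bichar G χ) (T : Finset G) (k : ℝ) (hk1 : 1 ≤ k) (hT : (T.card : ℝ) = k) (u : G → ℝ)
    (hu : nsq u ≤ 1) (hR : Roff T u ≤ 1) (ε : ℝ) (hε0 : 0 < ε) (hε1 : ε < 1) :
    frac (fun d => 49 / 100 * ε ≤ |nsq (Am χ T k (yv χ u) *ᵥ sv d) - nsq u|) ≤
      2 * Real.exp (- (3 / 1600) * (k * ε ^ 2)) := by
  have hk : 0 < k := by linarith
  have h1 := OB_Am h T k hk u hu hR
  have h2 : OB ((Am χ T k (yv χ u))ᵀ * Am χ T k (yv χ u)) (4 / k ^ 2) := by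
    have := h1.transpose.mul h1 (by positivity)
    refine this.mono (le_of_eq ?_)
    field_simp; norm_num
  have h3 := hw_tail (Am χ T k (yv χ u)) (4 / k ^ 2) (k * ε / 128) (49 / 100 * ε) (by positivity) h2 (by
    have : 8 * (k * ε / 128) ^ 2 * (4 / k ^ 2) = ε ^ 2 / 512 := by field_simp; ring
    rw [this]
    nlinarith)
  rw [fr_Am h T k hk hT] at h3
  refine h3.trans ?_
  refine mul_le_mul_of_nonneg_left (Real.exp_le_exp.2 ?_) (by norm_num)
  rw [fr_gram_Am h T k hk hT]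
  have h4 : (k * nsq u ^ 2 + Roff T u) / k ^ 2 ≤ 2 / k := by
    rw [div_le_div_iff₀ (by positivity) hk]
    have h5 : nsq u ^ 2 ≤ 1 := by nlinarith [nsq_nonneg u]
    have h6 : k * nsq u ^ 2 + Roff T u ≤ 2 * k := by nlinarith
    nlinarith
  have h5 : 16 * (k * ε / 128) ^ 2 * ((k * nsq u ^ 2 + Roff T u) / k ^ 2) ≤ 16 * (k * ε / 128) ^ 2 * (2 / k) :=
    mul_le_mul_of_nonneg_left h4 (by positivity)
  refine (sub_le_sub_right h5 _).trans (le_of_eq ?_)
  field_simp
  ring

end SRHT
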