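import Pool.Agent.Lib.SRHT.Defs
import Pool.Agent.Lib.SRHT.Conv

/-!
Sylvester's matrices are bicharacters.
-/

open Finset Matrix

namespace SRHT

/-- the nontrivial bicharacter of `ZMod 2` -/
def psi (a b : ZMod 2) : ℤ := if a = 1 ∧ b = 1 then -1 else 1

lemma psi_add : ∀ a b c : ZMod 2, psi a (b + c) = psi a b * psi a c := by decide
lemma psi_symm : ∀ a b : ZMod 2, psi a b = psi b a := by decide
lemma psi_sq : ∀ a b : ZMod 2, psi a b ^ 2 = 1 := by decide
lemma psi_sum : ∀ a : ZMod 2, psi a 0 + psi a 1 = if a = 0 then 2 else 0 := by decide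

lemma Bichar.double {G : Type*} [AddCommGroup G] [Fintype G] [DecidableEq G] {χ : G → G → ℝ}
    (h : Bichar G χ) :
    Bichar (ZMod 2 × G) (fun x y => (psi x.1 y.1 : ℝ) * χ x.2 y.2) where
  add := by
    rintro ⟨a, g⟩ ⟨b, l⟩ ⟨b', l'⟩
    simp only [Prod.fst_add, Prod.snd_add, psi_add, h.add]
    push_cast; ring
  symm := by
    rintro ⟨a, g⟩ ⟨b, l⟩
    simp only
    rw [psi_symm, h.symm]
  sq := by
    rintro ⟨a, g⟩ ⟨b, l⟩
    simp only
    rw [mul_pow, h.sq, mul_one]
    exact_mod_cast psi_sq a b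
  sum_ne := by
    rintro ⟨a, g⟩ hag
    rw [Fintype.sum_prod_type]
    have h1 : ∀ b : ZMod 2, ∑ l : G, (psi a b : ℝ) * χ g l = (psi a b : ℝ) * (∑ l : G, χ g l) := by
      intro b; rw [Finset.mul_sum]
    simp only
    simp_rw [h1]
    rw [← Finset.sum_mul]
    by_cases hg : g = 0
    · have ha : a ≠ 0 := by
        intro ha; apply hag; rw [ha, hg]; rfl
      have h2 : ∑ b : ZMod 2, (psi a b : ℝ) = ((psi a 0 + psi a 1 : ℤ) : ℝ) := by
        push_cast
        exact Fin.sum_univ_two (fun b : Fin 2 => (psi a b : ℝ))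
      rw [h2, psi_sum, if_neg ha]; simp
    · rw [h.sum_ne g hg, mul_zero]
  two := by
    rintro ⟨a, g⟩
    have : a + a = 0 := by revert a; decide
    ext
    · simpa using this
    · simpa using h.two g

lemma Bichar.transport {A B : Type*} [AddCommGroup A] [Fintype A] [DecidableEq A] [Fintype B]
    [DecidableEq B] {χ : A → A → ℝ} (h : Bichar A χ) (e : B ≃ A) (χ' : B → B → ℝ)
    (hχ : ∀ b b', χ' b b' = χ (e b) (e b')) :
    ∃ inst : AddCommGroup B, @Bichar B inst _ _ χ' := by
  letI := e.addCommGroup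
  refine ⟨inferInstance, ?_⟩
  have hadd : ∀ b b' : B, e (b + b') = e b + e b' := by
    intro b b'
    rw [Equiv.add_def]; simp
  have hzero : e (0 : B) = 0 := by
    rw [Equiv.zero_def]; simp
  constructor
  · intro a l l'
    rw [hχ, hχ, hχ, hadd, h.add]
  · intro a l
    rw [hχ, hχ, h.symm]
  · intro a l
    rw [hχ, h.sq]
  · intro a ha
    have : e a ≠ 0 := by
      intro h0; apply ha; apply e.injective; rw [h0, hzero]
    rw [← h.sum_ne _ this]
    exact Fintype.sum_equiv e _ _ (fun b => hχ a b)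
  · intro a
    apply e.injective
    rw [hadd, hzero, h.two]

/-- `ZMod 2 × G ≃ G ⊕ G` -/
def zsum (G : Type*) : ZMod 2 × G ≃ G ⊕ G where
  toFun x := if x.1 = 0 then Sum.inl x.2 else Sum.inr x.2
  invFun y := Sum.elim (fun g => (0, g)) (fun g => (1, g)) y
  left_inv := by
    rintro ⟨a, g⟩
    by_cases h : a = 0
    · simp [h]
    · have : a = 1 := by revert a; decide
      simp [this]
  right_inv := by
    rintro (g | g) <;> simp

theorem hadamard_bichar (m : ℕ) : ∃ inst : AddCommGroup (Fin (2 ^ m)),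
    @Bichar (Fin (2 ^ m)) inst _ _ (hadamard m) := by
  induction m with
  | zero =>
    have h0 : Bichar (Fin 1) (fun _ _ => (1 : ℝ)) := by
      constructor
      · intro a l l'; simp
      · intro a l; rfl
      · intro a l; norm_num
      · intro a ha; exact absurd (Subsingleton.elim a 0) ha
      · intro a; exact Subsingleton.elim _ _
    exact h0.transport (Equiv.refl (Fin 1)) _ (fun _ _ => rfl)
  | succ m ih =>
    obtain ⟨inst, h⟩ := ih
    refine h.double.transport ((blockEquiv m).symm.trans (zsum (Fin (2 ^ m))).symm) _ ?_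
    intro b b'
    obtain ⟨x, rfl⟩ := (blockEquiv m).surjective b
    obtain ⟨y, rfl⟩ := (blockEquiv m).surjective b'
    simp only [Equiv.trans_apply, Equiv.symm_apply_apply]
    have h1 : hadamard (m + 1) (blockEquiv m x) (blockEquiv m y)
        = Matrix.fromBlocks (hadamard m) (hadamard m) (hadamard m) (-(hadamard m)) x y := by
      simp [hadamard]
    rw [h1]
    rcases x with x | x <;> rcases y with y | y <;> simp [zsum, psi]

end SRHT
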