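import Pool.Agent.Lib.SRHT.Core
import Pool.Agent.Lib.SRHT.Had

/-!
Bridge between the statement level definitions and the averages.
-/

open Finset Matrix
open scoped BigOperators

namespace SRHT

lemma hadamard_symm (m : ℕ) : (hadamard m)ᵀ = hadamard m := by
  obtain ⟨inst, h⟩ := hadamard_bichar m
  ext i j
  rw [Matrix.transpose_apply, h.symm]

lemma walshF_eq (m : ℕ) : walshF m = (1 / Real.sqrt ((2 : ℝ) ^ m)) • hadamard m := by
  ext i j
  rw [Matrix.smul_apply, smul_eq_mul, one_div, inv_mul_eq_div]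
  rfl

lemma walshF_symm (m : ℕ) : (walshF m)ᵀ = walshF m := by
  rw [walshF_eq, Matrix.transpose_smul, hadamard_symm]

lemma selection_transpose_mulVec {n k : ℕ} (T : Finset (Fin n)) (hT : T.card = k) (w : Fin n → ℝ)
    (c : Fin k) : ((selection T hT)ᵀ *ᵥ w) c = w (T.orderEmbOfFin hT c) := by
  unfold Matrix.mulVec dotProduct
  simp [selection]

lemma sum_orderEmb {n k : ℕ} (T : Finset (Fin n)) (hT : T.card = k) (g : Fin n → ℝ) :
    ∑ c : Fin k, g (T.orderEmbOfFin hT c) = ∑ s ∈ T, g s := by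
  conv_rhs => rw [← Finset.map_orderEmbOfFin_univ T hT]
  rw [Finset.sum_map]
  rfl

lemma sqNorm_eq_nsq {n : ℕ} (x : Fin n → ℝ) : sqNorm x = nsq x := rfl

lemma norm_sq_bridge (m k : ℕ) (hk : 1 ≤ k) (ω : Sample (2 ^ m) k) (x : Fin (2 ^ m) → ℝ) :
    sqNorm ((rSRHT m k ω)ᵀ *ᵥ x)
      = nsq (Kmat (hadamard m) ω.2.2.1 k ω.1 ω.2.1 *ᵥ x) := by
  obtain ⟨d₁, d₂, T, hT⟩ := ω
  rw [sqNorm_eq_nsq]
  have hn : (0 : ℝ) < 2 ^ m := by positivity
  have hk' : (0 : ℝ) < k := by exact_mod_cast hk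
  have hcard : (Fintype.card (Fin (2 ^ m)) : ℝ) = 2 ^ m := by simp
  have h1 : (rSRHT m k (d₁, d₂, ⟨T, hT⟩))ᵀ = Real.sqrt ((2 : ℝ) ^ m / k) •
      ((selection T hT)ᵀ * (walshF m * (radDiag d₂ * (walshF m * radDiag d₁)))) := by
    unfold rSRHT mixing
    simp only [Matrix.transpose_smul, Matrix.transpose_mul, walshF_symm]
    have : ∀ d : Fin (2 ^ m) → ℤˣ, (radDiag d)ᵀ = radDiag d := by
      intro d; unfold radDiag; rw [Matrix.diagonal_transpose]
    rw [this, this]
  rw [h1, Matrix.smul_mulVec, nsq_smul, Real.sq_sqrt (by positivity), ← Matrix.mulVec_mulVec]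
  set w := (walshF m * (radDiag d₂ * (walshF m * radDiag d₁))) *ᵥ x with hw
  have h2 : nsq ((selection T hT)ᵀ *ᵥ w) = ∑ s ∈ T, w s ^ 2 := by
    unfold nsq
    simp_rw [selection_transpose_mulVec]
    exact sum_orderEmb T hT (fun s => w s ^ 2)
  rw [h2]
  -- the other side
  have h3 : Kmat (hadamard m) T k d₁ d₂ *ᵥ x
      = (Real.sqrt (2 ^ m) / Real.sqrt k) • (Matrix.diagonal (indv T) *ᵥ w) := by
    have h4 : Kmat (hadamard m) T k d₁ d₂ = (Real.sqrt (2 ^ m) / Real.sqrt k) •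
        (Matrix.diagonal (indv T) * (walshF m * (radDiag d₂ * (walshF m * radDiag d₁)))) := by
      unfold Kmat radDiag
      rw [walshF_eq, hcard]
      have hs : Real.sqrt ((2 : ℝ) ^ m) ≠ 0 := (Real.sqrt_pos.2 hn).ne'
      have hof : Matrix.of (hadamard m) = hadamard m := rfl
      have hsv : ∀ d : Fin (2 ^ m) → ℤˣ, sv d = fun i => ((d i : ℤ) : ℝ) := fun d => rfl
      rw [hof, hsv, hsv]
      simp only [Matrix.mul_smul, Matrix.smul_mul, smul_smul, Matrix.mul_assoc]
      congr 1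
      field_simp
    rw [h4, Matrix.smul_mulVec, ← Matrix.mulVec_mulVec]
  change _ = nsq (Kmat (hadamard m) T k d₁ d₂ *ᵥ x)
  rw [h3, nsq_smul, div_pow, Real.sq_sqrt hn.le, Real.sq_sqrt hk'.le]
  congr 1
  unfold nsq indv
  have h5 : ∀ s, (Matrix.diagonal (fun s => if s ∈ T then (1 : ℝ) else 0) *ᵥ w) s ^ 2
      = if s ∈ T then w s ^ 2 else 0 := by
    intro s
    rw [Matrix.mulVec_diagonal]
    split_ifs <;> simp
  simp_rw [h5]
  rw [← Finset.sum_filter]
  simp only [Finset.filter_mem_eq_inter, Finset.univ_inter]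

/-- from averages to the probability of success -/
lemma prob_bridge {n k : ℕ} (hkn : k ≤ n) (E : Sample n k → Prop)
    (F : Finset (Fin n) → (Fin n → ℤˣ) → (Fin n → ℤˣ) → Prop)
    (hEF : ∀ ω : Sample n k, ¬ E ω → F ω.2.2.1 ω.1 ω.2.1) (δ : ℝ)
    (hF : ∑ T ∈ Finset.powersetCard k (Finset.univ : Finset (Fin n)), avg (fun d₁ => frac (F T d₁))
      ≤ (n.choose k : ℝ) * δ) :
    1 - δ ≤ prob E := by
  classical
  unfold prob
  have hcard : (Fintype.card (Sample n k) : ℝ)
      = (Fintype.card (Fin n → ℤˣ) : ℝ) * ((Fintype.card (Fin n → ℤˣ) : ℝ) * (n.choose k : ℝ)) := by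
    rw [Fintype.card_prod, Fintype.card_prod]
    have : Fintype.card {T : Finset (Fin n) // T.card = k} = n.choose k := by
      rw [Fintype.card_finset_len, Fintype.card_fin]
    rw [this]; push_cast; ring
  have hc0 : (0 : ℝ) < (n.choose k : ℝ) := by exact_mod_cast Nat.choose_pos hkn
  have hN : (0 : ℝ) < (Fintype.card (Fin n → ℤˣ) : ℝ) := card_pos'
  have h1 : ((Finset.univ.filter fun ω : Sample n k => E ω).card : ℝ)
      + ((Finset.univ.filter fun ω : Sample n k => ¬ E ω).card : ℝ) = Fintype.card (Sample n k) := by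
    rw [← Nat.cast_add, Finset.card_filter_add_card_filter_not, Finset.card_univ]
  have h2 : ((Finset.univ.filter fun ω : Sample n k => ¬ E ω).card : ℝ)
      ≤ (Fintype.card (Fin n → ℤˣ) : ℝ) * ((Fintype.card (Fin n → ℤˣ) : ℝ) *
        ∑ T ∈ Finset.powersetCard k (Finset.univ : Finset (Fin n)), avg (fun d₁ => frac (F T d₁))) := by
    have h3 : ((Finset.univ.filter fun ω : Sample n k => ¬ E ω).card : ℝ)
        = ∑ ω : Sample n k, if ¬ E ω then (1 : ℝ) else 0 := by
      rw [Finset.card_filter]; push_cast; rfl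
    have h4 : ∑ ω : Sample n k, (if ¬ E ω then (1 : ℝ) else 0)
        ≤ ∑ ω : Sample n k, if F ω.2.2.1 ω.1 ω.2.1 then (1 : ℝ) else 0 := by
      refine Finset.sum_le_sum fun ω _ => ?_
      by_cases hE : E ω
      · rw [if_neg (not_not.2 hE)]
        split_ifs <;> norm_num
      · rw [if_pos hE, if_pos (hEF ω hE)]
    rw [h3]
    refine h4.trans (le_of_eq ?_)
    rw [Fintype.sum_prod_type]
    simp_rw [Fintype.sum_prod_type]
    have h5 : ∀ d₁ d₂ : Fin n → ℤˣ, ∑ T : {T : Finset (Fin n) // T.card = k},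
        (if F T.1 d₁ d₂ then (1 : ℝ) else 0)
        = ∑ T ∈ Finset.powersetCard k (Finset.univ : Finset (Fin n)), if F T d₁ d₂ then (1 : ℝ) else 0 := by
      intro d₁ d₂
      symm
      apply Finset.sum_subtype
      intro T
      rw [Finset.mem_powersetCard]
      exact ⟨fun h => h.2, fun h => ⟨Finset.subset_univ _, h⟩⟩
    simp_rw [h5]
    have h6 : ∀ d₁ : Fin n → ℤˣ, ∑ d₂ : Fin n → ℤˣ, ∑ T ∈ Finset.powersetCard k (Finset.univ : Finset (Fin n)),
        (if F T d₁ d₂ then (1 : ℝ) else 0)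
        = (Fintype.card (Fin n → ℤˣ) : ℝ) * ∑ T ∈ Finset.powersetCard k (Finset.univ : Finset (Fin n)),
          frac (F T d₁) := by
      intro d₁
      rw [Finset.sum_comm, Finset.mul_sum]
      refine Finset.sum_congr rfl fun T _ => ?_
      unfold frac avg
      field_simp
    simp_rw [h6]
    rw [← Finset.mul_sum, Finset.sum_comm]
    have h7 : ∀ T : Finset (Fin n), ∑ d₁ : Fin n → ℤˣ, frac (F T d₁)
        = (Fintype.card (Fin n → ℤˣ) : ℝ) * avg (fun d₁ => frac (F T d₁)) := by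
      intro T
      unfold avg
      field_simp
    simp_rw [h7]
    rw [← Finset.mul_sum]
  have h8 : ((Finset.univ.filter fun ω : Sample n k => ¬ E ω).card : ℝ)
      ≤ δ * Fintype.card (Sample n k) := by
    refine h2.trans ?_
    rw [hcard]
    calc (Fintype.card (Fin n → ℤˣ) : ℝ) * ((Fintype.card (Fin n → ℤˣ) : ℝ) *
        ∑ T ∈ Finset.powersetCard k (Finset.univ : Finset (Fin n)), avg (fun d₁ => frac (F T d₁)))
        ≤ (Fintype.card (Fin n → ℤˣ) : ℝ) * ((Fintype.card (Fin n → ℤˣ) : ℝ) * ((n.choose k : ℝ) * δ)) := by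
          gcongr
      _ = _ := by ring
  have hS : (0 : ℝ) < (Fintype.card (Sample n k) : ℝ) := by rw [hcard]; positivity
  rw [le_div_iff₀ hS]
  linarith

/-- Reduction of the OSE property to a bound of the averaged failure frequency. -/
theorem isOSE_of_avg (m r k : ℕ) (hk : 1 ≤ k) (hkn : k ≤ 2 ^ m) (ε δ : ℝ)
    (H : ∀ U : Matrix (Fin (2 ^ m)) (Fin r) ℝ, Uᵀ * U = 1 →
      ∑ T ∈ Finset.powersetCard k (Finset.univ : Finset (Fin (2 ^ m))),
        avg (fun d₁ => frac (Fail (hadamard m) U k ε T d₁)) ≤ ((2 ^ m).choose k : ℝ) * δ) :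
    IsOSE m r k (1 - ε) (1 + ε) δ := by
  intro V hV
  subst hV
  unfold embedProb
  set e := (WithLp.linearEquiv 2 ℝ (Fin (2 ^ m) → ℝ)).symm with he
  set V' : Submodule ℝ (EuclideanSpace ℝ (Fin (2 ^ m))) := V.map e.toLinearMap with hV'
  have hfin : Module.finrank ℝ V' = Module.finrank ℝ V := LinearEquiv.finrank_map_eq e V
  set b := (stdOrthonormalBasis ℝ V').reindex (finCongr hfin) with hb
  set U : Matrix (Fin (2 ^ m)) (Fin (Module.finrank ℝ V)) ℝ := fun j α => (b α : EuclideanSpace ℝ (Fin (2 ^ m))).ofLp j with hU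
  have hUU : Uᵀ * U = 1 := by
    ext α β
    rw [Matrix.mul_apply, Matrix.one_apply]
    have h1 := (orthonormal_iff_ite.1 b.orthonormal) α β
    rw [Submodule.coe_inner, EuclideanSpace.inner_eq_star_dotProduct] at h1
    simp only [star_trivial] at h1
    rw [← h1]
    unfold dotProduct
    refine Finset.sum_congr rfl fun j _ => ?_
    rw [Matrix.transpose_apply, mul_comm]
  have hUm : ∀ c : Fin (Module.finrank ℝ V) → ℝ,
      U *ᵥ c = ((∑ α, c α • b α : V') : EuclideanSpace ℝ (Fin (2 ^ m))).ofLp := by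
    intro c
    funext j
    rw [Submodule.coe_sum]
    simp only [Submodule.coe_smul]
    rw [WithLp.ofLp_sum, Finset.sum_apply]
    unfold Matrix.mulVec dotProduct
    refine Finset.sum_congr rfl fun α _ => ?_
    simp [hU, mul_comm]
  have hVc : ∀ x ∈ V, ∃ c : Fin (Module.finrank ℝ V) → ℝ, x = U *ᵥ c := by
    intro x hx
    have hx' : e x ∈ V' := Submodule.mem_map_of_mem hx
    refine ⟨fun α => inner ℝ (b α) (⟨e x, hx'⟩ : V'), ?_⟩
    rw [hUm]
    have := b.sum_repr' (⟨e x, hx'⟩ : V')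
    rw [this]
    rfl
  refine prob_bridge hkn _ (fun T d₁ d₂ => Fail (hadamard m) U k ε T d₁ d₂) ?_ δ ?_
  · intro ω hω
    unfold IsSubspaceEmbedding at hω
    push Not at hω
    obtain ⟨x, hx, h⟩ := hω
    obtain ⟨c, hc⟩ := hVc x hx
    refine ⟨c, ?_⟩
    rw [norm_sq_bridge m k hk, sqNorm_eq_nsq, hc, nsq_isom hUU] at h
    rw [lt_abs]
    by_cases h1 : (1 - ε) * nsq c ≤ nsq (Kmat (hadamard m) ω.2.2.1 k ω.1 ω.2.1 *ᵥ (U *ᵥ c))
    · left
      have := h h1
      linarith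
    · right
      push Not at h1
      linarith
  · exact H U hUU

end SRHT
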