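import Pool.Agent.Lib.SRHT.Count

/-!
Core estimate in the regime `400 k² r² ε² ≤ n`.
-/

open Finset Matrix
open scoped BigOperators

namespace SRHT

variable {G : Type*} [AddCommGroup G] [Fintype G] [DecidableEq G] {χ : G → G → ℝ}

/-- operator bound with a weaker requirement on the off-diagonal part -/
lemma OB_Am' (h : Bichar G χ) (T : Finset G) (k ρ : ℝ) (hk : 0 < k) (hρ : 1 ≤ ρ) (u : G → ℝ)
    (hu : nsq u ≤ 1) (hR : Roff T u ≤ ρ ^ 2) :
    OB (Am χ T k (yv χ u)) (2 * ρ / k) := by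
  suffices h0 : OB ((Am χ T k (yv χ u))ᵀ) (2 * ρ / k) by
    have := h0.transpose
    rwa [Matrix.transpose_transpose] at this
  intro v
  rw [nsq_mulVec_eq, Matrix.transpose_transpose]
  simp_rw [Am_gram h T k hk]
  have h1 : ∀ s s' : G, (if s ∈ T ∧ s' ∈ T then corr u (s + s') / k else 0) * (v s * v s')
      = if s ∈ T then (if s' ∈ T then corr u (s + s') / k * (v s * v s') else 0) else 0 := by
    intro s s'
    by_cases h1 : s ∈ T <;> by_cases h2 : s' ∈ T <;> simp [h1, h2]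
  simp_rw [h1]
  have h2 : ∀ s : G, (∑ s', if s ∈ T then (if s' ∈ T then corr u (s + s') / k * (v s * v s') else 0) else 0)
      = if s ∈ T then (∑ s' ∈ T, corr u (s + s') / k * (v s * v s')) else 0 := by
    intro s
    by_cases h1 : s ∈ T
    · simp only [h1, if_true]
      rw [← Finset.sum_filter]
      simp only [Finset.filter_mem_eq_inter, Finset.univ_inter]
    · simp [h1]
  simp_rw [h2]
  rw [← Finset.sum_filter]
  simp only [Finset.filter_mem_eq_inter, Finset.univ_inter]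
  have h3 : ∀ s ∈ T, (∑ s' ∈ T, corr u (s + s') / k * (v s * v s'))
      = nsq u / k * v s ^ 2 + (∑ s' ∈ T.erase s, corr u (s + s') * (v s * v s')) / k := by
    intro s hs
    rw [← Finset.add_sum_erase T _ hs, h.two, corr_zero, Finset.sum_div, sq]
    congr 1
    refine Finset.sum_congr rfl fun s' _ => ?_
    ring
  rw [Finset.sum_congr rfl h3, Finset.sum_add_distrib, ← Finset.mul_sum, ← Finset.sum_div]
  -- diagonal part
  have hv : ∑ s ∈ T, v s ^ 2 ≤ nsq v :=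
    Finset.sum_le_sum_of_subset_of_nonneg (Finset.subset_univ _) (fun _ _ _ => sq_nonneg _)
  have hv0 : 0 ≤ ∑ s ∈ T, v s ^ 2 := Finset.sum_nonneg fun _ _ => sq_nonneg _
  -- off-diagonal part
  have h4 : (∑ s ∈ T, ∑ s' ∈ T.erase s, corr u (s + s') * (v s * v s')) ^ 2 ≤ (ρ * nsq v) ^ 2 := by
    have h5 : ∀ f : G → G → ℝ, ∑ s ∈ T, ∑ s' ∈ T.erase s, f s s' = ∑ x ∈ T.sigma (fun s => T.erase s), f x.1 x.2 := by
      intro f; rw [Finset.sum_sigma]
    rw [h5]
    refine (Finset.sum_mul_sq_le_sq_mul_sq _ _ _).trans ?_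
    rw [← h5 (fun s s' => corr u (s + s') ^ 2), ← h5 (fun s s' => (v s * v s') ^ 2)]
    have h6 : ∑ s ∈ T, ∑ s' ∈ T.erase s, (v s * v s') ^ 2 ≤ nsq v ^ 2 := by
      have h7 : ∀ s ∈ T, ∑ s' ∈ T.erase s, (v s * v s') ^ 2 ≤ v s ^ 2 * nsq v := by
        intro s _
        simp_rw [mul_pow]
        rw [← Finset.mul_sum]
        exact mul_le_mul_of_nonneg_left (Finset.sum_le_sum_of_subset_of_nonneg (Finset.subset_univ _)
          (fun _ _ _ => sq_nonneg _)) (sq_nonneg _)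
      refine (Finset.sum_le_sum h7).trans ?_
      rw [← Finset.sum_mul, sq (nsq v)]
      exact mul_le_mul_of_nonneg_right hv (nsq_nonneg v)
    calc (∑ s ∈ T, ∑ s' ∈ T.erase s, corr u (s + s') ^ 2) * (∑ s ∈ T, ∑ s' ∈ T.erase s, (v s * v s') ^ 2)
        ≤ ρ ^ 2 * nsq v ^ 2 := mul_le_mul hR h6 (Finset.sum_nonneg fun _ _ => Finset.sum_nonneg fun _ _ => sq_nonneg _) (sq_nonneg _)
      _ = _ := (mul_pow _ _ _).symm
  have hρv : 0 ≤ ρ * nsq v := mul_nonneg (by linarith) (nsq_nonneg v)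
  have h5 : (∑ s ∈ T, ∑ s' ∈ T.erase s, corr u (s + s') * (v s * v s')) ≤ ρ * nsq v :=
    abs_le_of_sq_le_sq' h4 hρv |>.2
  have h6 : nsq u / k * ∑ s ∈ T, v s ^ 2 ≤ ρ / k * nsq v := by
    apply mul_le_mul _ hv hv0 (by positivity)
    exact div_le_div_of_nonneg_right (hu.trans hρ) hk.le
  have h7 : (∑ s ∈ T, ∑ s' ∈ T.erase s, corr u (s + s') * (v s * v s')) / k ≤ ρ * nsq v / k :=
    div_le_div_of_nonneg_right h5 hk.le
  calc _ ≤ ρ / k * nsq v + ρ * nsq v / k := add_le_add h6 h7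
    _ = _ := by ring

/-- tail for a fixed vector, with the weaker requirement `Roff ≤ ε⁻²` -/
lemma tail_fixed' (h : Bichar G χ) (T : Finset G) (k : ℝ) (hT : (T.card : ℝ) = k) (u : G → ℝ)
    (hu : nsq u ≤ 1) (ε : ℝ) (hε0 : 0 < ε) (hε1 : ε < 1) (hR : Roff T u ≤ (1 / ε) ^ 2)
    (hkε : 1 ≤ k * ε ^ 2) :
    frac (fun d => 49 / 100 * ε ≤ |nsq (Am χ T k (yv χ u) *ᵥ sv d) - nsq u|) ≤
      2 * Real.exp (- (3 / 1600) * (k * ε ^ 2)) := by
  have hk : 0 < k := by
    by_contra hk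
    push Not at hk
    nlinarith [sq_nonneg ε]
  have hε2 : (1 : ℝ) ≤ 1 / ε := by rw [le_div_iff₀ hε0]; linarith
  have h1 := OB_Am' h T k (1 / ε) hk hε2 u hu hR
  have h2 : OB ((Am χ T k (yv χ u))ᵀ * Am χ T k (yv χ u)) (4 / (k ^ 2 * ε ^ 2)) := by
    have := h1.transpose.mul h1 (by positivity)
    refine this.mono (le_of_eq ?_)
    field_simp; norm_num
  have h3 := hw_tail (Am χ T k (yv χ u)) (4 / (k ^ 2 * ε ^ 2)) (k * ε / 128) (49 / 100 * ε) (by positivity) h2 (by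
    have : 8 * (k * ε / 128) ^ 2 * (4 / (k ^ 2 * ε ^ 2)) = 1 / 512 := by field_simp; ring
    rw [this]; norm_num)
  rw [fr_Am h T k hk hT] at h3
  refine h3.trans ?_
  refine mul_le_mul_of_nonneg_left (Real.exp_le_exp.2 ?_) (by norm_num)
  rw [fr_gram_Am h T k hk hT]
  have h4 : (k * nsq u ^ 2 + Roff T u) / k ^ 2 ≤ 2 / k := by
    rw [div_le_div_iff₀ (by positivity) hk]
    have h5 : nsq u ^ 2 ≤ 1 := by nlinarith [nsq_nonneg u]
    have h7 : Roff T u ≤ k := by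
      refine hR.trans ?_
      rw [div_pow, one_pow, div_le_iff₀ (by positivity)]
      exact hkε
    have h6 : k * nsq u ^ 2 + Roff T u ≤ 2 * k := by nlinarith
    nlinarith
  have h5 : 16 * (k * ε / 128) ^ 2 * ((k * nsq u ^ 2 + Roff T u) / k ^ 2) ≤ 16 * (k * ε / 128) ^ 2 * (2 / k) :=
    mul_le_mul_of_nonneg_left h4 (by positivity)
  refine (sub_le_sub_right h5 _).trans (le_of_eq ?_)
  field_simp
  ring

/-- indicator vector -/
noncomputable def indv {G : Type*} [DecidableEq G] (T : Finset G) : G → ℝ := fun s => if s ∈ T then 1 else 0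

/-- the full matrix `√(n/k) 1_T F D₂ F D₁` written with the unnormalised matrix -/
noncomputable def Kmat (χ : G → G → ℝ) (T : Finset G) (k : ℝ) (d₁ d₂ : G → ℤˣ) : Matrix G G ℝ :=
  (1 / Real.sqrt k) • (Matrix.diagonal (indv T) * (Matrix.of χ) * Matrix.diagonal (sv d₂) *
    ((1 / Real.sqrt (Fintype.card G)) • (Matrix.of χ)) * Matrix.diagonal (sv d₁))

lemma Kmat_mulVec (T : Finset G) (k : ℝ) (d₁ d₂ : G → ℤˣ) (x : G → ℝ) :
    Kmat χ T k d₁ d₂ *ᵥ x = Am χ T k (yv χ (fun j => sv d₁ j * x j)) *ᵥ sv d₂ := by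
  unfold Kmat
  rw [Matrix.smul_mulVec, ← Matrix.mulVec_mulVec, ← Matrix.mulVec_mulVec, ← Matrix.mulVec_mulVec,
    ← Matrix.mulVec_mulVec]
  have h1 : Matrix.diagonal (sv d₁) *ᵥ x = fun j => sv d₁ j * x j := by
    funext j; rw [Matrix.mulVec_diagonal]
  have h2 : ∀ u : G → ℝ, ((1 / Real.sqrt (Fintype.card G)) • (Matrix.of χ)) *ᵥ u = yv χ u := by
    intro u
    funext l
    rw [Matrix.smul_mulVec]
    unfold yv
    simp only [Pi.smul_apply, smul_eq_mul]
    rw [one_div, inv_mul_eq_div]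
    rfl
  have h3 : ∀ y : G → ℝ, Matrix.diagonal (sv d₂) *ᵥ y = fun l => sv d₂ l * y l := by
    intro y; funext j; rw [Matrix.mulVec_diagonal]
  rw [h1, h2, h3]
  funext s
  simp only [Pi.smul_apply, smul_eq_mul]
  rw [Matrix.mulVec_diagonal]
  unfold Am indv
  by_cases hs : s ∈ T
  · simp only [hs, if_true, Matrix.mulVec, dotProduct, Matrix.of_apply, one_mul]
    rw [Finset.mul_sum]
    refine Finset.sum_congr rfl fun l _ => ?_
    ring
  · simp [hs, Matrix.mulVec, dotProduct]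

lemma nsq_signed (d : G → ℤˣ) (x : G → ℝ) : nsq (fun j => sv d j * x j) = nsq x := by
  unfold nsq
  refine Finset.sum_congr rfl fun j _ => ?_
  rw [mul_pow, sv_sq, one_mul]

lemma nsq_isom {r : ℕ} {U : Matrix G (Fin r) ℝ} (hU : Uᵀ * U = 1) (c : Fin r → ℝ) :
    nsq (U *ᵥ c) = nsq c := by
  rw [nsq_eq_dot, nsq_eq_dot, Matrix.dotProduct_mulVec, Matrix.vecMul_mulVec, hU, Matrix.vecMul_one]

lemma frac_union {ι : Type*} [Fintype ι] [DecidableEq ι] {κ : Type*} (s : Finset κ)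
    (E : (ι → ℤˣ) → Prop) (F : κ → (ι → ℤˣ) → Prop)
    (h : ∀ d, E d → ∃ p ∈ s, F p d) : frac E ≤ ∑ p ∈ s, frac (F p) := by
  classical
  have h1 : ∑ p ∈ s, frac (F p) = avg (fun d => ∑ p ∈ s, if F p d then (1 : ℝ) else 0) := by
    rw [avg_sum]
    refine Finset.sum_congr rfl fun p _ => ?_
    unfold frac
    rfl
  rw [h1]
  apply frac_le_avg
  · intro d
    refine Finset.sum_nonneg fun p _ => ?_
    split_ifs <;> norm_num
  · intro d hd
    obtain ⟨p, hp, hF⟩ := h d hd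
    have h2 : (if F p d then (1 : ℝ) else 0) ≤ ∑ p ∈ s, if F p d then (1 : ℝ) else 0 := by
      refine Finset.single_le_sum (f := fun p => if F p d then (1 : ℝ) else 0) (fun q _ => ?_) hp
      split_ifs <;> norm_num
    rw [if_pos hF] at h2
    exact h2

lemma frac_le_one {ι : Type*} [Fintype ι] [DecidableEq ι] (E : (ι → ℤˣ) → Prop) : frac E ≤ 1 := by
  have := frac_le_avg E (fun _ => 1) (fun _ => zero_le_one) (fun _ _ => le_rfl)
  rwa [avg_const] at this

/-- the failure event -/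
def Fail (χ : G → G → ℝ) {r : ℕ} (U : Matrix G (Fin r) ℝ) (k : ℝ) (ε : ℝ) (T : Finset G)
    (d₁ d₂ : G → ℤˣ) : Prop :=
  ∃ c : Fin r → ℝ, ε * nsq c < |nsq (Kmat χ T k d₁ d₂ *ᵥ (U *ᵥ c)) - nsq c|

lemma exp_bound : (1600 : ℝ) ≤ Real.exp 8 := by
  have h1 := Real.exp_one_gt_d9
  have h2 : Real.exp 8 = Real.exp 1 ^ 8 := by rw [← Real.exp_nat_mul]; norm_num
  rw [h2]
  have h3 : (2.7 : ℝ) ≤ Real.exp 1 := by linarith
  calc (1600 : ℝ) ≤ 2.7 ^ 8 := by norm_num
    _ ≤ _ := pow_le_pow_left₀ (by norm_num) h3 8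

lemma net_tail {r : ℕ} (hr : 1 ≤ r) {k ε : ℝ} (hk : 12800 * r ≤ k * ε ^ 2) :
    ((net r).card : ℝ) * (2 * Real.exp (- (3 / 1600) * (k * ε ^ 2))) ≤ 1 / 200 := by
  have h1 := net_card r
  have h2 : Real.exp (- (3 / 1600) * (k * ε ^ 2)) ≤ Real.exp (-24) ^ r := by
    rw [← Real.exp_nat_mul]
    apply Real.exp_le_exp.2
    linarith
  have h3 : (0 : ℝ) < 4 * Real.exp 16 := by positivity
  calc ((net r).card : ℝ) * (2 * Real.exp (- (3 / 1600) * (k * ε ^ 2)))
      ≤ (4 * Real.exp 16) ^ r * (2 * Real.exp (-24) ^ r) := by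
        apply mul_le_mul h1 _ (by positivity) (by positivity)
        linarith
    _ = 2 * (4 * Real.exp (-8)) ^ r := by
        have : Real.exp (-8) = Real.exp 16 * Real.exp (-24) := by
          rw [← Real.exp_add]; norm_num
        rw [this, ← mul_assoc 4 (Real.exp 16), mul_pow (4 * Real.exp 16)]
        ring
    _ ≤ 2 * (4 * Real.exp (-8)) := by
        have h4 : Real.exp (-8) ≤ 1 / 1600 := by
          rw [Real.exp_neg, one_div]
          exact inv_anti₀ (by norm_num) exp_bound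
        have h5 : 4 * Real.exp (-8) ≤ 1 := by linarith
        have h6 : (4 * Real.exp (-8)) ^ r ≤ (4 * Real.exp (-8)) ^ 1 :=
          pow_le_pow_of_le_one (by positivity) h5 hr
        rw [pow_one] at h6
        linarith
    _ ≤ 1 / 200 := by
        have h4 : Real.exp (-8) ≤ 1 / 1600 := by
          rw [Real.exp_neg, one_div]
          exact inv_anti₀ (by norm_num) exp_bound
        linarith

lemma frac_fail_le (h : Bichar G χ) {r : ℕ} (hr : 1 ≤ r) (U : Matrix G (Fin r) ℝ) (hU : Uᵀ * U = 1)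
    (k : ℕ) {ε : ℝ} (hε0 : 0 < ε) (hε1 : ε < 1) (hk : 12800 * r ≤ k * ε ^ 2)
    (T : Finset G) (hT : T.card = k) (d₁ : G → ℤˣ) :
    frac (Fail χ U k ε T d₁) ≤ ε ^ 2 * Qoff T d₁ U + 1 / 200 := by
  have hr' : (1 : ℝ) ≤ r := by exact_mod_cast hr
  have hk1 : (1 : ℝ) ≤ k := by
    have : ε ^ 2 ≤ 1 := by nlinarith
    have hk0 : (0 : ℝ) ≤ k := Nat.cast_nonneg k
    nlinarith
  have hTk : (T.card : ℝ) = (k : ℝ) := by exact_mod_cast hT
  have hQε := Qoff_nonneg T d₁ U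
  by_cases hQ : ε ^ 2 * Qoff T d₁ U ≤ 1
  · have h1 : frac (Fail χ U k ε T d₁) ≤ ∑ p ∈ net r,
        frac (fun d₂ => 49 / 100 * ε ≤ |nsq (Am χ T k (yv χ (fun j => sv d₁ j * (U *ᵥ pt p) j)) *ᵥ sv d₂)
          - nsq (fun j => sv d₁ j * (U *ᵥ pt p) j)|) := by
      apply frac_union
      intro d₂ hd
      by_contra hcon
      push Not at hcon
      obtain ⟨c, hc⟩ := hd
      set M := Kmat χ T k d₁ d₂ * U with hM
      set W : Matrix (Fin r) (Fin r) ℝ := Mᵀ * M - 1 with hW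
      have hWs : Wᵀ = W := by
        rw [hW, Matrix.transpose_sub, Matrix.transpose_mul, Matrix.transpose_transpose,
          Matrix.transpose_one]
      have hq : ∀ c : Fin r → ℝ, c ⬝ᵥ (W *ᵥ c) = nsq (Kmat χ T k d₁ d₂ *ᵥ (U *ᵥ c)) - nsq c := by
        intro c
        rw [hW, Matrix.sub_mulVec, Matrix.one_mulVec, dotProduct_sub, ← nsq_eq_dot,
          Matrix.mulVec_mulVec, ← hM, nsq_eq_dot (M *ᵥ c), Matrix.dotProduct_mulVec (M *ᵥ c),
          Matrix.vecMul_mulVec, Matrix.dotProduct_mulVec]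
      have h2 : ∀ p ∈ net r, |pt p ⬝ᵥ (W *ᵥ pt p)| ≤ 49 / 100 * ε := by
        intro p hp
        have := (hcon p hp).le
        rw [nsq_signed, nsq_isom hU, ← Kmat_mulVec] at this
        rw [hq]
        exact this
      have h3 := quad_sup W hr hWs (49 / 100 * ε) (by positivity) h2 c
      rw [hq] at h3
      have h4 : 288 / 143 * (49 / 100 * ε) * nsq c ≤ ε * nsq c := by
        apply mul_le_mul_of_nonneg_right _ (nsq_nonneg c)
        linarith
      linarith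
    refine h1.trans ?_
    have h2 : ∀ p ∈ net r, frac (fun d₂ => 49 / 100 * ε ≤ |nsq (Am χ T k (yv χ (fun j => sv d₁ j * (U *ᵥ pt p) j)) *ᵥ sv d₂)
          - nsq (fun j => sv d₁ j * (U *ᵥ pt p) j)|) ≤ 2 * Real.exp (- (3 / 1600) * (k * ε ^ 2)) := by
      intro p hp
      have hp1 := nsq_pt hr hp
      apply tail_fixed' h T k hTk _ _ ε hε0 hε1
      · refine (Roff_le_Qoff T d₁ U (pt p) hp1).trans ?_
        rw [div_pow, one_pow, le_div_iff₀ (by positivity), mul_comm]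
        exact hQ
      · linarith
      · rw [nsq_signed, nsq_isom hU]; exact hp1
    have h3 := Finset.sum_le_sum h2
    rw [Finset.sum_const, nsmul_eq_mul] at h3
    have h4 := net_tail hr hk
    have h5 : 0 ≤ ε ^ 2 * Qoff T d₁ U := by positivity
    linarith
  · push Not at hQ
    have := frac_le_one (Fail χ U k ε T d₁)
    linarith

/-- the core probability bound -/
theorem core (h : Bichar G χ) {r : ℕ} (hr : 1 ≤ r) (U : Matrix G (Fin r) ℝ) (hU : Uᵀ * U = 1)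
    (k : ℕ) {ε : ℝ} (hε0 : 0 < ε) (hε1 : ε < 1) (hk : 12800 * r ≤ k * ε ^ 2)
    (hn : 400 * (k : ℝ) ^ 2 * (r : ℝ) ^ 2 * ε ^ 2 ≤ Fintype.card G) :
    ∑ T ∈ Finset.powersetCard k (Finset.univ : Finset G), avg (fun d₁ => frac (Fail χ U k ε T d₁))
      ≤ ((Fintype.card G).choose k : ℝ) * (1 / 100) := by
  have hG : (0 : ℝ) < (Fintype.card G : ℝ) := by exact_mod_cast Fintype.card_pos
  have hcol : ∀ α, ∑ j, U j α ^ 2 = 1 := by
    intro α
    have : (Uᵀ * U) α α = 1 := by rw [hU, Matrix.one_apply_eq]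
    rw [Matrix.mul_apply] at this
    rw [← this]
    refine Finset.sum_congr rfl fun j _ => ?_
    rw [Matrix.transpose_apply, sq]
  have h1 : ∑ T ∈ Finset.powersetCard k (Finset.univ : Finset G), avg (fun d₁ => frac (Fail χ U k ε T d₁))
      ≤ ∑ T ∈ Finset.powersetCard k (Finset.univ : Finset G), (ε ^ 2 * avg (fun d₁ => Qoff T d₁ U) + 1 / 200) := by
    refine Finset.sum_le_sum fun T hT => ?_
    have hT' := (Finset.mem_powersetCard.1 hT).2
    refine (avg_mono fun d₁ => frac_fail_le h hr U hU k hε0 hε1 hk T hT' d₁).trans ?_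
    rw [avg_add, avg_const, avg_mul_left]
  refine h1.trans ?_
  rw [Finset.sum_add_distrib, ← Finset.mul_sum, Finset.sum_const, Finset.card_powersetCard, Finset.card_univ, nsmul_eq_mul]
  have h2 := sum_avg_Qoff_le h.two U hcol k
  have h3 : ε ^ 2 * (2 * (k : ℝ) ^ 2 * (r : ℝ) ^ 2 / (Fintype.card G : ℝ)) ≤ 1 / 200 := by
    rw [← mul_div_assoc, div_le_iff₀ hG]; linarith
  have h4 : (0 : ℝ) ≤ ((Fintype.card G).choose k : ℝ) := Nat.cast_nonneg _
  have h5 := mul_le_mul_of_nonneg_left h3 h4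
  have h6 := mul_le_mul_of_nonneg_left h2 (sq_nonneg ε)
  calc ε ^ 2 * ∑ T ∈ Finset.powersetCard k (Finset.univ : Finset G), avg (fun d₁ => Qoff T d₁ U)
        + ((Fintype.card G).choose k : ℝ) * (1 / 200)
      ≤ ε ^ 2 * (((Fintype.card G).choose k : ℝ) * (2 * (k : ℝ) ^ 2 * (r : ℝ) ^ 2 / (Fintype.card G : ℝ)))
        + ((Fintype.card G).choose k : ℝ) * (1 / 200) := by linarith
    _ = ((Fintype.card G).choose k : ℝ) * (ε ^ 2 * (2 * (k : ℝ) ^ 2 * (r : ℝ) ^ 2 / (Fintype.card G : ℝ)))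
        + ((Fintype.card G).choose k : ℝ) * (1 / 200) := by ring
    _ ≤ _ := by linarith

end SRHT
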