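import Pool.Agent.Lib.SRHT.Conv

/-!
Averages over `k`-subsets.
-/

open Finset Matrix
open scoped BigOperators

namespace SRHT

section count

variable {G : Type*} [Fintype G] [DecidableEq G]

lemma pair_card_le (k : ℕ) {s s' : G} (hss : s' ≠ s) :
    ((Finset.powersetCard (k + 2) (Finset.univ : Finset G)).filter fun T => s ∈ T ∧ s' ∈ T).card
      ≤ (Fintype.card G - 2).choose k := by
  have h1 : ((Finset.univ : Finset G).erase s |>.erase s').card = Fintype.card G - 2 := by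
    rw [Finset.card_erase_of_mem (Finset.mem_erase.2 ⟨hss, Finset.mem_univ _⟩),
      Finset.card_erase_of_mem (Finset.mem_univ _), Finset.card_univ]
    rfl
  rw [← h1, ← Finset.card_powersetCard]
  refine Finset.card_le_card_of_injOn (fun T => (T.erase s).erase s') ?_ ?_
  · intro T hT
    rw [Finset.mem_coe, Finset.mem_filter, Finset.mem_powersetCard] at hT
    obtain ⟨⟨_, hc⟩, hs, hs'⟩ := hT
    refine Finset.mem_coe.2 (Finset.mem_powersetCard.2
      ⟨Finset.erase_subset_erase _ (Finset.erase_subset_erase _ (Finset.subset_univ _)), ?_⟩)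
    rw [Finset.card_erase_of_mem (Finset.mem_erase.2 ⟨hss, hs'⟩), Finset.card_erase_of_mem hs, hc]
    rfl
  · intro T hT T' hT' hTT
    rw [Finset.mem_coe, Finset.mem_filter, Finset.mem_powersetCard] at hT hT'
    simp only at hTT
    have h2 : insert s (insert s' ((T.erase s).erase s')) = T := by
      rw [Finset.insert_erase (Finset.mem_erase.2 ⟨hss, hT.2.2⟩), Finset.insert_erase hT.2.1]
    have h3 : insert s (insert s' ((T'.erase s).erase s')) = T' := by
      rw [Finset.insert_erase (Finset.mem_erase.2 ⟨hss, hT'.2.2⟩), Finset.insert_erase hT'.2.1]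
    rw [← h2, ← h3, hTT]

lemma choose_ineq (n k : ℕ) : n.choose k * (n + 2) ^ 2 ≤ (n + 2).choose (k + 2) * (k + 2) ^ 2 := by
  have h1 := Nat.add_one_mul_choose_eq (n + 1) (k + 1)
  have h2 := Nat.add_one_mul_choose_eq n k
  have h3 : n.choose k ≤ (n + 1).choose (k + 1) := by
    rw [Nat.choose_succ_succ]; omega
  set c0 := n.choose k
  set c1 := (n + 1).choose (k + 1)
  set c2 := (n + 1 + 1).choose (k + 1 + 1)
  have h5 : c2 * (k + 2) ^ 2 = (n + 2) * (c1 * (k + 2)) := by
    calc c2 * (k + 2) ^ 2 = (c2 * (k + 1 + 1)) * (k + 2) := by ring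
      _ = ((n + 1 + 1) * c1) * (k + 2) := by rw [← h1]
      _ = _ := by ring
  rw [h5]
  have h6 : c0 * (n + 2) ≤ c1 * (k + 2) := by
    calc c0 * (n + 2) = (n + 1) * c0 + c0 := by ring
      _ ≤ c1 * (k + 1) + c1 := by rw [h2]; omega
      _ = _ := by ring
  calc c0 * (n + 2) ^ 2 = (n + 2) * (c0 * (n + 2)) := by ring
    _ ≤ _ := Nat.mul_le_mul_left _ h6

lemma pair_card_sq (k : ℕ) {s s' : G} (hss : s' ≠ s) :
    ((Finset.powersetCard k (Finset.univ : Finset G)).filter fun T => s ∈ T ∧ s' ∈ T).card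
      * (Fintype.card G) ^ 2 ≤ (Fintype.card G).choose k * k ^ 2 := by
  have hn : 2 ≤ Fintype.card G := by
    have := Finset.card_le_univ ({s, s'} : Finset G)
    rw [Finset.card_pair hss.symm] at this
    exact this
  rcases k with _ | _ | k
  · have : ((Finset.powersetCard 0 (Finset.univ : Finset G)).filter fun T => s ∈ T ∧ s' ∈ T) = ∅ := by
      rw [Finset.filter_eq_empty_iff]
      intro T hT h
      rw [Finset.mem_powersetCard] at hT
      rw [Finset.card_eq_zero.1 hT.2] at h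
      exact absurd h.1 (Finset.notMem_empty _)
    rw [this]; simp
  · have : ((Finset.powersetCard (0 + 1) (Finset.univ : Finset G)).filter fun T => s ∈ T ∧ s' ∈ T) = ∅ := by
      rw [Finset.filter_eq_empty_iff]
      intro T hT h
      rw [Finset.mem_powersetCard] at hT
      have h2 := Finset.card_le_card (show ({s, s'} : Finset G) ⊆ T from by
        intro x hx
        rcases Finset.mem_insert.1 hx with h3 | h3
        · rw [h3]; exact h.1
        · rw [Finset.mem_singleton.1 h3]; exact h.2)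
      rw [Finset.card_pair hss.symm] at h2
      omega
    rw [this]; simp
  · have h1 := pair_card_le k hss
    obtain ⟨m, hm⟩ := Nat.exists_eq_add_of_le hn
    have hm' : Fintype.card G = m + 2 := by omega
    have h2 := choose_ineq m k
    rw [hm'] at h1 ⊢
    have h3 : m + 2 - 2 = m := by omega
    rw [h3] at h1
    exact (Nat.mul_le_mul_right _ h1).trans h2

/-- sum over `k`-subsets of a nonnegative pair function -/
lemma sum_subsets_le (k : ℕ) (g : G → G → ℝ) (hg : ∀ s s', 0 ≤ g s s') :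
    ∑ T ∈ Finset.powersetCard k (Finset.univ : Finset G), ∑ s ∈ T, ∑ s' ∈ T.erase s, g s s'
      ≤ ((Fintype.card G).choose k : ℝ) * ((k : ℝ) ^ 2 / (Fintype.card G : ℝ) ^ 2) *
        ∑ s, ∑ s' ∈ Finset.univ.erase s, g s s' := by
  have h1 : ∀ T : Finset G, ∑ s ∈ T, ∑ s' ∈ T.erase s, g s s'
      = ∑ s, ∑ s' ∈ Finset.univ.erase s, if s ∈ T ∧ s' ∈ T then g s s' else 0 := by
    intro T
    rw [← Finset.sum_subset (Finset.subset_univ T)]
    · refine Finset.sum_congr rfl fun s hs => ?_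
      rw [← Finset.sum_subset (Finset.erase_subset_erase s (Finset.subset_univ T))]
      · refine Finset.sum_congr rfl fun s' hs' => ?_
        rw [if_pos ⟨hs, Finset.mem_of_mem_erase hs'⟩]
      · intro s' hs' hn
        rw [if_neg]
        intro h
        exact hn (Finset.mem_erase.2 ⟨Finset.ne_of_mem_erase hs', h.2⟩)
    · intro s _ hs
      refine Finset.sum_eq_zero fun s' _ => ?_
      rw [if_neg (fun h => hs h.1)]
  rw [Finset.sum_congr rfl (fun T _ => h1 T)]
  rw [Finset.sum_comm, Finset.mul_sum]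
  refine Finset.sum_le_sum fun s _ => ?_
  rw [Finset.sum_comm, Finset.mul_sum]
  refine Finset.sum_le_sum fun s' hs' => ?_
  rw [← Finset.sum_filter, Finset.sum_const, nsmul_eq_mul]
  refine mul_le_mul_of_nonneg_right ?_ (hg s s')
  have h2 := pair_card_sq (G := G) k (Finset.ne_of_mem_erase hs')
  have hn : (0 : ℝ) < (Fintype.card G : ℝ) := by
    have : 0 < Fintype.card G := Fintype.card_pos_iff.2 ⟨s⟩
    exact_mod_cast this
  rw [← mul_div_assoc, le_div_iff₀ (by positivity)]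
  exact_mod_cast h2

end count

section quad

variable {G : Type*} [AddCommGroup G] [Fintype G] [DecidableEq G] {r : ℕ}

/-- the matrix entries `(Uᵀ D₁ Π_a D₁ U)_{αβ}` -/
noncomputable def Bq (d : G → ℤˣ) (U : Matrix G (Fin r) ℝ) (a : G) (α β : Fin r) : ℝ :=
  ∑ j, (sv d j * sv d (j + a)) * (U j α * U (j + a) β)

noncomputable def qq (d : G → ℤˣ) (U : Matrix G (Fin r) ℝ) (a : G) : ℝ :=
  ∑ α, ∑ β, Bq d U a α β ^ 2

lemma qq_nonneg (d : G → ℤˣ) (U : Matrix G (Fin r) ℝ) (a : G) : 0 ≤ qq d U a :=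
  Finset.sum_nonneg fun _ _ => Finset.sum_nonneg fun _ _ => sq_nonneg _

lemma corr_eq (d : G → ℤˣ) (U : Matrix G (Fin r) ℝ) (c : Fin r → ℝ) (a : G) :
    corr (fun j => sv d j * (U *ᵥ c) j) a = ∑ α, ∑ β, (c α * c β) * Bq d U a α β := by
  have h1 : ∀ j : G, (sv d j * (U *ᵥ c) j) * (sv d (j + a) * (U *ᵥ c) (j + a))
      = ∑ α, ∑ β, (c α * c β) * ((sv d j * sv d (j + a)) * (U j α * U (j + a) β)) := by
    intro j
    have hmv : ∀ j, (U *ᵥ c) j = ∑ i, U j i * c i := fun j => rfl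
    rw [hmv, hmv]
    calc (sv d j * ∑ i, U j i * c i) * (sv d (j + a) * ∑ i, U (j + a) i * c i)
        = (sv d j * sv d (j + a)) * ((∑ i, U j i * c i) * (∑ i, U (j + a) i * c i)) := by ring
      _ = _ := by
        rw [Finset.sum_mul_sum, Finset.mul_sum]
        refine Finset.sum_congr rfl fun α _ => ?_
        rw [Finset.mul_sum]
        refine Finset.sum_congr rfl fun β _ => ?_
        ring
  unfold corr
  rw [Finset.sum_congr rfl (fun j _ => h1 j)]
  rw [Finset.sum_comm]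
  refine Finset.sum_congr rfl fun α _ => ?_
  rw [Finset.sum_comm]
  refine Finset.sum_congr rfl fun β _ => ?_
  unfold Bq
  rw [Finset.mul_sum]

lemma corr_sq_le (d : G → ℤˣ) (U : Matrix G (Fin r) ℝ) (c : Fin r → ℝ) (hc : nsq c ≤ 1) (a : G) :
    corr (fun j => sv d j * (U *ᵥ c) j) a ^ 2 ≤ qq d U a := by
  rw [corr_eq]
  have h1 : ∀ f : Fin r → Fin r → ℝ, ∑ α, ∑ β, f α β = ∑ p : Fin r × Fin r, f p.1 p.2 := by
    intro f; rw [Fintype.sum_prod_type]
  rw [h1]
  refine (Finset.sum_mul_sq_le_sq_mul_sq _ _ _).trans ?_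
  rw [← h1 (fun α β => (c α * c β) ^ 2), ← h1 (fun α β => Bq d U a α β ^ 2)]
  have h2 : ∑ α, ∑ β, (c α * c β) ^ 2 = nsq c * nsq c := by
    unfold nsq
    rw [Finset.sum_mul_sum]
    simp_rw [mul_pow]
  rw [h2]
  have h3 : nsq c * nsq c ≤ 1 := by nlinarith [nsq_nonneg c]
  exact mul_le_of_le_one_left (qq_nonneg d U a) h3

lemma avg_four {a : G} (h2 : ∀ a : G, a + a = 0) (ha : a ≠ 0) (i j : G) :
    avg (fun d : G → ℤˣ => (sv d i * sv d (i + a)) * (sv d j * sv d (j + a)))
      = (if j = i then 1 else 0) + (if j = i + a then 1 else 0) := by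
  by_cases h1 : j = i
  · subst h1
    have : ∀ d : G → ℤˣ, (sv d j * sv d (j + a)) * (sv d j * sv d (j + a)) = 1 := by
      intro d
      have := sv_mul_self d j
      have := sv_mul_self d (j + a)
      calc (sv d j * sv d (j + a)) * (sv d j * sv d (j + a))
          = (sv d j * sv d j) * (sv d (j + a) * sv d (j + a)) := by ring
        _ = 1 := by rw [sv_mul_self, sv_mul_self, one_mul]
    simp_rw [this, avg_const]
    have h3 : ¬ (j = j + a) := by
      intro h; exact ha (left_eq_add.1 h)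
    simp [ha]
  · by_cases h3 : j = i + a
    · have h4 : j + a = i := by rw [h3, add_assoc, h2, add_zero]
      have : ∀ d : G → ℤˣ, (sv d i * sv d (i + a)) * (sv d j * sv d (j + a)) = 1 := by
        intro d
        rw [h4, ← h3]
        calc (sv d i * sv d j) * (sv d j * sv d i)
            = (sv d i * sv d i) * (sv d j * sv d j) := by ring
          _ = 1 := by rw [sv_mul_self, sv_mul_self, one_mul]
      simp_rw [this, avg_const]
      rw [if_neg h1, if_pos h3, zero_add]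
    · rw [if_neg h1, if_neg h3, add_zero]
      refine avg_eq_zero_of_flip _ (Function.update 1 j (-1)) ?_
      intro d
      rw [sv_mul, sv_mul, sv_mul, sv_mul]
      have e1 : sv (Function.update (1 : G → ℤˣ) j (-1)) j = -1 := by unfold sv; simp
      have e2 : ∀ l, l ≠ j → sv (Function.update (1 : G → ℤˣ) j (-1)) l = 1 := by
        intro l hl; unfold sv; rw [Function.update_of_ne hl]; simp
      have h5 : j + a ≠ j := by intro h; exact ha (add_eq_left.1 h)
      rw [e1, e2 i (Ne.symm h1), e2 (i + a) (Ne.symm h3), e2 (j + a) h5]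
      ring

lemma avg_sq_le {a : G} (h2 : ∀ a : G, a + a = 0) (ha : a ≠ 0) (v : G → ℝ) :
    avg (fun d : G → ℤˣ => (∑ j, (sv d j * sv d (j + a)) * v j) ^ 2) ≤ 2 * ∑ j, v j ^ 2 := by
  have h3 : ∀ d : G → ℤˣ, (∑ j, (sv d j * sv d (j + a)) * v j) ^ 2
      = ∑ i, ∑ j, (v i * v j) * ((sv d i * sv d (i + a)) * (sv d j * sv d (j + a))) := by
    intro d
    rw [sq, Finset.sum_mul_sum]
    refine Finset.sum_congr rfl fun α _ => Finset.sum_congr rfl fun β _ => ?_
    ring
  simp_rw [h3]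
  rw [avg_sum]
  simp_rw [avg_sum, avg_mul_left, avg_four h2 ha, mul_add, mul_ite, mul_one, mul_zero]
  simp_rw [Finset.sum_add_distrib]
  simp_rw [Finset.sum_ite_eq', Finset.mem_univ, if_true]
  have h4 : ∑ i, v i * v (i + a) ≤ ∑ i, v i ^ 2 := by
    have h5 : ∑ i, v (i + a) ^ 2 = ∑ i, v i ^ 2 :=
      Fintype.sum_equiv (Equiv.addRight a) _ _ (fun _ => rfl)
    have h6 : ∑ i, v i * v (i + a) ≤ ∑ i, (v i ^ 2 + v (i + a) ^ 2) / 2 := by
      refine Finset.sum_le_sum fun i _ => ?_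
      nlinarith [sq_nonneg (v i - v (i + a))]
    rw [← Finset.sum_div, Finset.sum_add_distrib, h5] at h6
    linarith
  have h7 : ∑ i, v i * v i = ∑ i, v i ^ 2 := by simp_rw [sq]
  rw [h7]
  linarith

lemma avg_qq_le {a : G} (h2 : ∀ a : G, a + a = 0) (ha : a ≠ 0) (U : Matrix G (Fin r) ℝ) :
    avg (fun d : G → ℤˣ => qq d U a) ≤ 2 * ∑ α, ∑ β, ∑ j, U j α ^ 2 * U (j + a) β ^ 2 := by
  unfold qq
  rw [avg_sum, Finset.mul_sum]
  refine Finset.sum_le_sum fun α _ => ?_
  rw [avg_sum, Finset.mul_sum]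
  refine Finset.sum_le_sum fun β _ => ?_
  have := avg_sq_le h2 ha (fun j => U j α * U (j + a) β)
  simp_rw [mul_pow] at this
  exact this

lemma sum_avg_qq_le (h2 : ∀ a : G, a + a = 0) (U : Matrix G (Fin r) ℝ) (hU : ∀ α, ∑ j, U j α ^ 2 = 1) :
    ∑ a ∈ Finset.univ.erase (0 : G), avg (fun d : G → ℤˣ => qq d U a) ≤ 2 * (r : ℝ) ^ 2 := by
  have h1 : ∑ a ∈ Finset.univ.erase (0 : G), avg (fun d : G → ℤˣ => qq d U a)
      ≤ ∑ a ∈ Finset.univ.erase (0 : G), 2 * ∑ α, ∑ β, ∑ j, U j α ^ 2 * U (j + a) β ^ 2 :=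
    Finset.sum_le_sum fun a ha => avg_qq_le h2 (Finset.ne_of_mem_erase ha) U
  refine h1.trans ?_
  have h3 : ∑ a ∈ Finset.univ.erase (0 : G), 2 * ∑ α, ∑ β, ∑ j, U j α ^ 2 * U (j + a) β ^ 2
      ≤ ∑ a : G, 2 * ∑ α : Fin r, ∑ β : Fin r, ∑ j, U j α ^ 2 * U (j + a) β ^ 2 :=
    Finset.sum_le_sum_of_subset_of_nonneg (Finset.subset_univ _) (fun a _ _ => by positivity)
  refine h3.trans (le_of_eq ?_)
  rw [← Finset.mul_sum]
  congr 1
  rw [Finset.sum_comm]
  have h4 : ∀ α : Fin r, ∑ a : G, ∑ β : Fin r, ∑ j, U j α ^ 2 * U (j + a) β ^ 2 = r := by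
    intro α
    rw [Finset.sum_comm]
    have h5 : ∀ β : Fin r, ∑ a : G, ∑ j, U j α ^ 2 * U (j + a) β ^ 2 = 1 := by
      intro β
      rw [Finset.sum_comm]
      have h6 : ∀ j : G, ∑ a : G, U j α ^ 2 * U (j + a) β ^ 2 = U j α ^ 2 := by
        intro j
        rw [← Finset.mul_sum]
        have : ∑ a : G, U (j + a) β ^ 2 = ∑ l, U l β ^ 2 :=
          Fintype.sum_equiv (Equiv.addLeft j) _ _ (fun _ => rfl)
        rw [this, hU, mul_one]
      simp_rw [h6, hU]
    simp_rw [h5]
    simp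
  simp_rw [h4]
  simp [sq]

/-- the total off-diagonal sum -/
noncomputable def Qoff (T : Finset G) (d : G → ℤˣ) (U : Matrix G (Fin r) ℝ) : ℝ :=
  ∑ s ∈ T, ∑ s' ∈ T.erase s, qq d U (s + s')

lemma Qoff_nonneg (T : Finset G) (d : G → ℤˣ) (U : Matrix G (Fin r) ℝ) : 0 ≤ Qoff T d U :=
  Finset.sum_nonneg fun _ _ => Finset.sum_nonneg fun _ _ => qq_nonneg _ _ _

lemma Roff_le_Qoff (T : Finset G) (d : G → ℤˣ) (U : Matrix G (Fin r) ℝ) (c : Fin r → ℝ)
    (hc : nsq c ≤ 1) : Roff T (fun j => sv d j * (U *ᵥ c) j) ≤ Qoff T d U :=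
  Finset.sum_le_sum fun _ _ => Finset.sum_le_sum fun _ _ => corr_sq_le d U c hc _

/-- the expectation of the off-diagonal sum over the signs `d₁` and the sample -/
lemma sum_avg_Qoff_le (h2 : ∀ a : G, a + a = 0) (U : Matrix G (Fin r) ℝ)
    (hU : ∀ α, ∑ j, U j α ^ 2 = 1) (k : ℕ) :
    ∑ T ∈ Finset.powersetCard k (Finset.univ : Finset G), avg (fun d => Qoff T d U)
      ≤ ((Fintype.card G).choose k : ℝ) * (2 * (k : ℝ) ^ 2 * (r : ℝ) ^ 2 / (Fintype.card G : ℝ)) := by
  have hn : (0 : ℝ) < (Fintype.card G : ℝ) := by exact_mod_cast Fintype.card_pos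
  have h1 : ∀ T : Finset G, avg (fun d => Qoff T d U)
      = ∑ s ∈ T, ∑ s' ∈ T.erase s, avg (fun d : G → ℤˣ => qq d U (s + s')) := by
    intro T
    unfold Qoff
    rw [avg_sum]
    simp_rw [avg_sum]
  simp_rw [h1]
  refine (sum_subsets_le k (fun s s' => avg (fun d : G → ℤˣ => qq d U (s + s')))
    (fun s s' => avg_nonneg fun d => qq_nonneg _ _ _)).trans ?_
  have h3 : ∀ s : G, ∑ s' ∈ Finset.univ.erase s, avg (fun d : G → ℤˣ => qq d U (s + s'))
      = ∑ a ∈ Finset.univ.erase (0 : G), avg (fun d : G → ℤˣ => qq d U a) := by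
    intro s
    refine Finset.sum_nbij' (fun s' => s + s') (fun a => s + a) ?_ ?_ ?_ ?_ ?_
    · intro s' hs'
      refine Finset.mem_erase.2 ⟨?_, Finset.mem_univ _⟩
      intro h
      have : s' = s := by
        have h5 : s + (s + s') = s' := by rw [← add_assoc, h2, zero_add]
        rw [h, add_zero] at h5
        exact h5.symm
      exact Finset.ne_of_mem_erase hs' this
    · intro a ha
      refine Finset.mem_erase.2 ⟨?_, Finset.mem_univ _⟩
      intro h
      exact Finset.ne_of_mem_erase ha (add_eq_left.1 h)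
    · intro s' _; rw [← add_assoc, h2, zero_add]
    · intro a _; rw [← add_assoc, h2, zero_add]
    · intro s' _; rfl
  simp_rw [h3]
  rw [Finset.sum_const, Finset.card_univ, nsmul_eq_mul]
  have h4 := sum_avg_qq_le h2 U hU
  calc ((Fintype.card G).choose k : ℝ) * ((k : ℝ) ^ 2 / (Fintype.card G : ℝ) ^ 2) *
        ((Fintype.card G : ℝ) * ∑ a ∈ Finset.univ.erase (0 : G), avg (fun d : G → ℤˣ => qq d U a))
      ≤ ((Fintype.card G).choose k : ℝ) * ((k : ℝ) ^ 2 / (Fintype.card G : ℝ) ^ 2) *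
        ((Fintype.card G : ℝ) * (2 * (r : ℝ) ^ 2)) := by
        apply mul_le_mul_of_nonneg_left _ (by positivity)
        exact mul_le_mul_of_nonneg_left h4 hn.le
    _ = _ := by field_simp

end quad

end SRHT
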