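import Mathlib

/-!
# The rerandomized subsampled Hadamard transform: statement level definitions (MP_bd58a7_pr)
-/

open Matrix

namespace SRHT

theorem two_pow_add_self (m : ℕ) : 2 ^ m + 2 ^ m = 2 ^ (m + 1) := by
  rw [pow_succ]; ring

/-- The index identification `{1..n} ⊔ {1..n} = {1..2n}` for `n = 2^m` (first block, second block). -/
def blockEquiv (m : ℕ) : Fin (2 ^ m) ⊕ Fin (2 ^ m) ≃ Fin (2 ^ (m + 1)) :=
  finSumFinEquiv.trans (finCongr (two_pow_add_self m))

/-- Sylvester's matrices `H_n`, `n = 2^m`: `H_1 = (1)` and `H_{2n} = [[H_n, H_n], [H_n, -H_n]]`. -/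
noncomputable def hadamard : (m : ℕ) → Matrix (Fin (2 ^ m)) (Fin (2 ^ m)) ℝ
  | 0 => fun _ _ => 1
  | m + 1 => (Matrix.fromBlocks (hadamard m) (hadamard m) (hadamard m) (-(hadamard m))).reindex
      (blockEquiv m) (blockEquiv m)

/-- The orthogonal Walsh-Hadamard matrix `F = H_n / √n`, `n = 2^m`. -/
noncomputable def walshF (m : ℕ) : Matrix (Fin (2 ^ m)) (Fin (2 ^ m)) ℝ :=
  fun i j => hadamard m i j / Real.sqrt ((2 : ℝ) ^ m)

/-- The diagonal matrix of a sign vector. -/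
def radDiag {n : ℕ} (d : Fin n → ℤˣ) : Matrix (Fin n) (Fin n) ℝ :=
  Matrix.diagonal fun i => ((d i : ℤ) : ℝ)

/-- The matrix `S ∈ ℝ^{n × k}` with columns `e_j`, `j ∈ T`, for a `k`-subset `T` (in increasing order). -/
def selection {n k : ℕ} (T : Finset (Fin n)) (hT : T.card = k) : Matrix (Fin n) (Fin k) ℝ :=
  fun i c => if i = T.orderEmbOfFin hT c then 1 else 0

/-- The sample space of `(D₁, D₂, S)`: two sign vectors and a `k`-subset, with the uniform probability. -/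
abbrev Sample (n k : ℕ) : Type :=
  (Fin n → ℤˣ) × (Fin n → ℤˣ) × {T : Finset (Fin n) // T.card = k}

/-- The matrix `D₁ F D₂ F`. -/
noncomputable def mixing (m : ℕ) (d₁ d₂ : Fin (2 ^ m) → ℤˣ) : Matrix (Fin (2 ^ m)) (Fin (2 ^ m)) ℝ :=
  radDiag d₁ * walshF m * radDiag d₂ * walshF m

/-- The rerandomized SRHT `Ω = √(n/k) D₁ F D₂ F S`. -/
noncomputable def rSRHT (m k : ℕ) (ω : Sample (2 ^ m) k) : Matrix (Fin (2 ^ m)) (Fin k) ℝ :=
  Real.sqrt ((2 : ℝ) ^ m / k) • (mixing m ω.1 ω.2.1 * selection ω.2.2.1 ω.2.2.2)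

/-- The squared Euclidean norm `‖x‖₂²`. -/
def sqNorm {n : ℕ} (x : Fin n → ℝ) : ℝ := ∑ i, x i ^ 2

/-- `Ω` is a subspace embedding for `V` with parameters `α, β`. -/
def IsSubspaceEmbedding {n k : ℕ} (Ω : Matrix (Fin n) (Fin k) ℝ)
    (V : Submodule ℝ (Fin n → ℝ)) (α β : ℝ) : Prop :=
  ∀ x ∈ V, α * sqNorm x ≤ sqNorm (Ωᵀ *ᵥ x) ∧ sqNorm (Ωᵀ *ᵥ x) ≤ β * sqNorm x

/-- The uniform probability of an event on a finite type. -/
noncomputable def prob {α : Type*} [Fintype α] (E : α → Prop) : ℝ :=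
  open Classical in ((Finset.univ.filter fun a => E a).card : ℝ) / (Fintype.card α : ℝ)

/-- The probability that the rerandomized SRHT is a subspace embedding for `V`. -/
noncomputable def embedProb (m k : ℕ) (V : Submodule ℝ (Fin (2 ^ m) → ℝ)) (α β : ℝ) : ℝ :=
  prob fun ω : Sample (2 ^ m) k => IsSubspaceEmbedding (rSRHT m k ω) V α β

/-- The rerandomized SRHT with `n = 2^m` and embedding dimension `k` is an oblivious subspace embedding
for `r`-dimensional subspaces, with parameters `α, β` and failure probability `δ`. -/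
def IsOSE (m r k : ℕ) (α β δ : ℝ) : Prop :=
  ∀ V : Submodule ℝ (Fin (2 ^ m) → ℝ), Module.finrank ℝ V = r →
    1 - δ ≤ embedProb m k V α β

end SRHT
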