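import Pool.Agent.Lib.SRHT.Signs

/-!
Hanson-Wright inequality for sign vectors.
-/

open Finset Matrix
open scoped BigOperators

namespace SRHT

variable {ι : Type*} [Fintype ι] [DecidableEq ι]

/-- squared norm -/
def nsq {κ : Type*} [Fintype κ] (v : κ → ℝ) : ℝ := ∑ i, v i ^ 2

lemma nsq_nonneg {κ : Type*} [Fintype κ] (v : κ → ℝ) : 0 ≤ nsq v :=
  Finset.sum_nonneg fun _ _ => sq_nonneg _

lemma nsq_smul {κ : Type*} [Fintype κ] (c : ℝ) (v : κ → ℝ) : nsq (c • v) = c ^ 2 * nsq v := by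
  unfold nsq; rw [Finset.mul_sum]; refine Finset.sum_congr rfl fun i _ => ?_
  simp [mul_pow]

lemma nsq_eq_dot {κ : Type*} [Fintype κ] (v : κ → ℝ) : nsq v = v ⬝ᵥ v := by
  unfold nsq dotProduct; simp [sq]

lemma dot_sq_le {κ : Type*} [Fintype κ] (v w : κ → ℝ) : (v ⬝ᵥ w) ^ 2 ≤ nsq v * nsq w := by
  unfold nsq dotProduct
  exact Finset.sum_mul_sq_le_sq_mul_sq _ _ _

omit [DecidableEq ι] in
lemma nsq_sv (d : ι → ℤˣ) : nsq (sv d) = Fintype.card ι := by
  unfold nsq; simp_rw [sv_sq]; simp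

/-- squared Frobenius norm -/
def fr (A : Matrix ι ι ℝ) : ℝ := ∑ i, ∑ j, A i j ^ 2

/-- operator bound -/
def OB (A : Matrix ι ι ℝ) (b : ℝ) : Prop := ∀ v : ι → ℝ, nsq (A *ᵥ v) ≤ b * nsq v

omit [DecidableEq ι] in
lemma fr_nonneg (A : Matrix ι ι ℝ) : 0 ≤ fr A :=
  Finset.sum_nonneg fun _ _ => Finset.sum_nonneg fun _ _ => sq_nonneg _

omit [DecidableEq ι] in
lemma OB.mono {A : Matrix ι ι ℝ} {a b : ℝ} (h : OB A a) (hab : a ≤ b) : OB A b := fun v =>
  (h v).trans (mul_le_mul_of_nonneg_right hab (nsq_nonneg v))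

omit [DecidableEq ι] in
lemma OB.mul {A B : Matrix ι ι ℝ} {a b : ℝ} (hA : OB A a) (hB : OB B b) (ha : 0 ≤ a) :
    OB (A * B) (a * b) := by
  intro v
  rw [← Matrix.mulVec_mulVec, mul_assoc]
  exact (hA _).trans (mul_le_mul_of_nonneg_left (hB v) ha)

omit [DecidableEq ι] in
lemma OB.smul {A : Matrix ι ι ℝ} {a : ℝ} (hA : OB A a) (c : ℝ) : OB (c • A) (c ^ 2 * a) := by
  intro v
  rw [Matrix.smul_mulVec, nsq_smul, mul_assoc]
  exact mul_le_mul_of_nonneg_left (hA v) (sq_nonneg c)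

omit [DecidableEq ι] in
lemma OB.transpose {A : Matrix ι ι ℝ} {a : ℝ} (hA : OB A a) : OB Aᵀ a := by
  intro v
  set w := Aᵀ *ᵥ v with hw
  have h1 : nsq w = v ⬝ᵥ (A *ᵥ w) := by
    rw [nsq_eq_dot]
    conv_lhs => rw [hw]
    rw [dotProduct_comm, Matrix.dotProduct_mulVec, Matrix.vecMul_transpose, dotProduct_comm]
  have h2 : nsq w ^ 2 ≤ nsq v * (a * nsq w) := by
    rw [h1]
    refine (dot_sq_le _ _).trans ?_
    rw [← h1]
    exact mul_le_mul_of_nonneg_left (hA w) (nsq_nonneg v)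
  rcases (nsq_nonneg w).eq_or_lt with h0 | h0
  · rw [← h0]
    -- need `0 ≤ a * nsq v`
    have := hA v
    exact (nsq_nonneg _).trans this
  · have : nsq w * nsq w ≤ (a * nsq v) * nsq w := by nlinarith
    exact le_of_mul_le_mul_right this h0

/-- diagonal contraction -/
lemma OB_diag (c : ι → ℝ) (hc : ∀ i, c i ^ 2 ≤ 1) : OB (Matrix.diagonal c) 1 := by
  intro v
  rw [one_mul]
  unfold nsq
  refine Finset.sum_le_sum fun i _ => ?_
  rw [Matrix.mulVec_diagonal, mul_pow]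
  exact mul_le_of_le_one_left (sq_nonneg _) (hc i)

omit [DecidableEq ι] in
lemma fr_eq_cols (A : Matrix ι ι ℝ) : fr A = ∑ j, nsq (fun i => A i j) := by
  unfold fr nsq; rw [Finset.sum_comm]

omit [DecidableEq ι] in
lemma fr_transpose (A : Matrix ι ι ℝ) : fr Aᵀ = fr A := by
  unfold fr; rw [Finset.sum_comm]; rfl

omit [DecidableEq ι] in
lemma fr_mul_le {A : Matrix ι ι ℝ} {a : ℝ} (hA : OB A a) (B : Matrix ι ι ℝ) :
    fr (A * B) ≤ a * fr B := by
  rw [fr_eq_cols, fr_eq_cols, Finset.mul_sum]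
  refine Finset.sum_le_sum fun j _ => ?_
  have : (fun i => (A * B) i j) = A *ᵥ (fun i => B i j) := by
    funext i; simp [Matrix.mul_apply, Matrix.mulVec, dotProduct]
  rw [this]
  exact hA _

omit [DecidableEq ι] in
lemma fr_mul_le' {B : Matrix ι ι ℝ} {b : ℝ} (hB : OB B b) (A : Matrix ι ι ℝ) :
    fr (A * B) ≤ b * fr A := by
  rw [← fr_transpose, Matrix.transpose_mul, ← fr_transpose A]
  exact fr_mul_le hB.transpose _

omit [DecidableEq ι] in
lemma fr_smul (c : ℝ) (A : Matrix ι ι ℝ) : fr (c • A) = c ^ 2 * fr A := by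
  unfold fr
  simp_rw [Finset.mul_sum, Matrix.smul_apply, smul_eq_mul, mul_pow]

omit [DecidableEq ι] in
lemma nsq_mulVec_le_fr (A : Matrix ι ι ℝ) (v : ι → ℝ) : nsq (A *ᵥ v) ≤ fr A * nsq v := by
  unfold fr
  rw [Finset.sum_mul]
  unfold nsq
  refine Finset.sum_le_sum fun i _ => ?_
  have := dot_sq_le (A i) v
  simpa [nsq, Matrix.mulVec] using this

omit [DecidableEq ι] in
/-- `nsq (N v) = Σ (NᵀN)_ij v_i v_j` -/
lemma nsq_mulVec_eq (N : Matrix ι ι ℝ) (v : ι → ℝ) :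
    nsq (N *ᵥ v) = ∑ i, ∑ j, (Nᵀ * N) i j * (v i * v j) := by
  unfold nsq
  simp_rw [Matrix.mul_apply, Matrix.transpose_apply, Matrix.mulVec, dotProduct, sq]
  simp_rw [Finset.sum_mul_sum, Finset.sum_mul]
  rw [Finset.sum_comm]
  refine Finset.sum_congr rfl fun i _ => ?_
  rw [Finset.sum_comm]
  refine Finset.sum_congr rfl fun j _ => ?_
  refine Finset.sum_congr rfl fun k _ => ?_
  ring

omit [DecidableEq ι] in
lemma trace_eq (N : Matrix ι ι ℝ) : ∑ i, (Nᵀ * N) i i = fr N := by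
  unfold fr
  simp_rw [Matrix.mul_apply, Matrix.transpose_apply, sq]
  rw [Finset.sum_comm]

omit [DecidableEq ι] in
lemma fr_gram (N : Matrix ι ι ℝ) : fr (Nᵀ * N) = fr (N * Nᵀ) := by
  have h : ∀ X : Matrix ι ι ℝ, fr X = Matrix.trace (Xᵀ * X) := by
    intro X
    rw [← trace_eq]; rfl
  rw [h, h]
  simp only [Matrix.transpose_mul, Matrix.transpose_transpose]
  rw [Matrix.mul_assoc, Matrix.trace_mul_comm]
  simp only [Matrix.mul_assoc]

/-- the selected matrix -/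
noncomputable def selm (e : ι → ℤˣ) (B : Matrix ι ι ℝ) : Matrix ι ι ℝ :=
  Matrix.diagonal (psel e) * B * Matrix.diagonal (qsel e)

omit [Fintype ι] [DecidableEq ι] in
lemma psel_sq_le (e : ι → ℤˣ) (i : ι) : psel e i ^ 2 ≤ 1 := by
  rcases sel_cases e i with ⟨_, h, _⟩ | ⟨_, h, _⟩ <;> rw [h] <;> norm_num

omit [Fintype ι] [DecidableEq ι] in
lemma qsel_sq_le (e : ι → ℤˣ) (i : ι) : qsel e i ^ 2 ≤ 1 := by
  rcases sel_cases e i with ⟨_, _, h⟩ | ⟨_, _, h⟩ <;> rw [h] <;> norm_num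

lemma selm_OB (e : ι → ℤˣ) {B : Matrix ι ι ℝ} {b : ℝ} (h : OB B b) : OB (selm e B) b := by
  unfold selm
  have h1 := ((OB_diag (psel e) (psel_sq_le e)).mul h zero_le_one)
  have hb : 0 ≤ 1 * b ∨ ∀ v : ι → ℝ, nsq v = 0 := by
    by_cases hb : 0 ≤ b
    · left; simpa using hb
    · right
      intro v
      have := h v
      have h2 := nsq_nonneg (B *ᵥ v)
      have h3 := nsq_nonneg v
      push Not at hb
      nlinarith
  rcases hb with hb | hb
  · have := h1.mul (OB_diag (qsel e) (qsel_sq_le e)) hb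
    simpa using this
  · intro v; rw [hb v, hb, mul_zero]

lemma selm_fr (e : ι → ℤˣ) (B : Matrix ι ι ℝ) : fr (selm e B) ≤ fr B := by
  unfold selm
  have h1 := fr_mul_le' (OB_diag (qsel e) (qsel_sq_le e)) (Matrix.diagonal (psel e) * B)
  have h2 := fr_mul_le (OB_diag (psel e) (psel_sq_le e)) B
  linarith

lemma selm_nsq (e : ι → ℤˣ) (B : Matrix ι ι ℝ) (v : ι → ℝ) :
    nsq (selm e B *ᵥ v) = ∑ i, (psel e i * ∑ j, B i j * (qsel e j * v j)) ^ 2 := by
  unfold nsq selm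
  refine Finset.sum_congr rfl fun i _ => ?_
  congr 1
  rw [← Matrix.mulVec_mulVec, ← Matrix.mulVec_mulVec, Matrix.mulVec_diagonal]
  congr 1
  unfold Matrix.mulVec dotProduct
  refine Finset.sum_congr rfl fun j _ => ?_
  congr 1
  simp [Matrix.diagonal]

/-- iteration: positive semidefinite exponents -/
lemma psd_mgf_aux (t : ℕ) : ∀ N : Matrix ι ι ℝ, OB N (1 / 16) →
    avg (fun d => Real.exp (nsq (N *ᵥ sv d))) ≤
      Real.exp ((2 + (Fintype.card ι : ℝ) / 2 ^ t) * fr N) := by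
  induction t with
  | zero =>
    intro N _
    have h1 : ∀ d : ι → ℤˣ, Real.exp (nsq (N *ᵥ sv d)) ≤
        Real.exp ((2 + (Fintype.card ι : ℝ) / 2 ^ 0) * fr N) := by
      intro d
      refine Real.exp_le_exp.2 ?_
      have := nsq_mulVec_le_fr N (sv d)
      rw [nsq_sv] at this
      have h0 := fr_nonneg N
      simp only [pow_zero, div_one]
      nlinarith
    have := avg_mono h1
    rwa [avg_const] at this
  | succ t ih =>
    intro N hN
    set c : ℝ := (Fintype.card ι : ℝ) with hc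
    have h1 : ∀ d : ι → ℤˣ, Real.exp (nsq (N *ᵥ sv d)) =
        Real.exp (fr N) * Real.exp ((∑ i, ∑ j, (Nᵀ * N) i j * (sv d i * sv d j)) - ∑ i, (Nᵀ * N) i i) := by
      intro d
      rw [← Real.exp_add, ← nsq_mulVec_eq, trace_eq]
      ring_nf
    simp_rw [h1]
    rw [avg_mul_left]
    have h2 : avg (fun d => Real.exp ((∑ i, ∑ j, (Nᵀ * N) i j * (sv d i * sv d j)) - ∑ i, (Nᵀ * N) i i))
        ≤ Real.exp ((1 + c / 2 ^ (t + 1)) * fr N) := by
      apply one_step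
      intro e
      have hs8 : Real.sqrt 8 ^ 2 = 8 := Real.sq_sqrt (by norm_num)
      have hG : OB (Nᵀ * N) (1 / 16 * (1 / 16)) := hN.transpose.mul hN (by norm_num)
      have h3 : OB (Real.sqrt 8 • selm e (Nᵀ * N)) (1 / 16) := by
        have := (selm_OB e hG).smul (Real.sqrt 8)
        refine this.mono ?_
        rw [hs8]; norm_num
      have h4 := ih _ h3
      have h5 : ∀ d : ι → ℤˣ, nsq ((Real.sqrt 8 • selm e (Nᵀ * N)) *ᵥ sv d)
          = 8 * ∑ i, (psel e i * ∑ j, (Nᵀ * N) i j * (qsel e j * sv d j)) ^ 2 := by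
        intro d
        rw [Matrix.smul_mulVec, nsq_smul, hs8, selm_nsq]
      simp_rw [h5] at h4
      refine h4.trans (Real.exp_le_exp.2 ?_)
      have h6 : fr (Real.sqrt 8 • selm e (Nᵀ * N)) ≤ fr N / 2 := by
        rw [fr_smul, hs8]
        have h7 := selm_fr e (Nᵀ * N)
        have h8 := fr_mul_le hN.transpose N
        linarith
      have h9 : 0 ≤ 2 + c / 2 ^ t := by positivity
      calc (2 + c / 2 ^ t) * fr (Real.sqrt 8 • selm e (Nᵀ * N))
          ≤ (2 + c / 2 ^ t) * (fr N / 2) := mul_le_mul_of_nonneg_left h6 h9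
        _ = (1 + c / 2 ^ (t + 1)) * fr N := by rw [pow_succ]; field_simp
    calc Real.exp (fr N) * avg (fun d => Real.exp ((∑ i, ∑ j, (Nᵀ * N) i j * (sv d i * sv d j)) - ∑ i, (Nᵀ * N) i i))
        ≤ Real.exp (fr N) * Real.exp ((1 + c / 2 ^ (t + 1)) * fr N) :=
          mul_le_mul_of_nonneg_left h2 (Real.exp_pos _).le
      _ = _ := by rw [← Real.exp_add]; ring_nf

lemma psd_mgf (N : Matrix ι ι ℝ) (hN : OB N (1 / 16)) :
    avg (fun d => Real.exp (nsq (N *ᵥ sv d))) ≤ Real.exp (2 * fr N) := by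
  have h1 : Filter.Tendsto (fun t : ℕ => Real.exp ((2 + (Fintype.card ι : ℝ) / 2 ^ t) * fr N))
      Filter.atTop (nhds (Real.exp ((2 + 0) * fr N))) := by
    refine (Real.continuous_exp.tendsto _).comp ?_
    refine Filter.Tendsto.mul_const _ (Filter.Tendsto.const_add _ ?_)
    exact tendsto_const_nhds.div_atTop (tendsto_pow_atTop_atTop_of_one_lt (by norm_num))
  have h2 := ge_of_tendsto' h1 (fun t => psd_mgf_aux t N hN)
  simpa using h2

/-- Hanson-Wright moment generating function bound -/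
lemma hw_mgf (A : Matrix ι ι ℝ) (b lam : ℝ) (hb : OB (Aᵀ * A) b) (hl : 8 * lam ^ 2 * b ≤ 1 / 16) :
    avg (fun d => Real.exp (lam * (nsq (A *ᵥ sv d) - fr A))) ≤
      Real.exp (16 * lam ^ 2 * fr (Aᵀ * A)) := by
  have h1 : ∀ d : ι → ℤˣ, lam * (nsq (A *ᵥ sv d) - fr A)
      = (∑ i, ∑ j, (lam • (Aᵀ * A)) i j * (sv d i * sv d j)) - ∑ i, (lam • (Aᵀ * A)) i i := by
    intro d
    rw [nsq_mulVec_eq, ← trace_eq, mul_sub, Finset.mul_sum, Finset.mul_sum]
    simp_rw [Finset.mul_sum, Matrix.smul_apply, smul_eq_mul, mul_assoc]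
  simp_rw [h1]
  apply one_step
  intro e
  have hs8 : Real.sqrt 8 ^ 2 = 8 := Real.sq_sqrt (by norm_num)
  have h3 : OB (Real.sqrt 8 • selm e (lam • (Aᵀ * A))) (1 / 16) := by
    have := (selm_OB e (hb.smul lam)).smul (Real.sqrt 8)
    refine this.mono ?_
    rw [hs8]; linarith
  have h4 := psd_mgf _ h3
  have h5 : ∀ d : ι → ℤˣ, nsq ((Real.sqrt 8 • selm e (lam • (Aᵀ * A))) *ᵥ sv d)
      = 8 * ∑ i, (psel e i * ∑ j, (lam • (Aᵀ * A)) i j * (qsel e j * sv d j)) ^ 2 := by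
    intro d
    rw [Matrix.smul_mulVec, nsq_smul, hs8, selm_nsq]
  simp_rw [h5] at h4
  refine h4.trans (Real.exp_le_exp.2 ?_)
  rw [fr_smul, hs8]
  have := selm_fr e (lam • (Aᵀ * A))
  rw [fr_smul] at this
  linarith

/-- Markov for averages: fraction of sign vectors with a property -/
noncomputable def frac (E : (ι → ℤˣ) → Prop) : ℝ :=
  open Classical in avg (fun d => if E d then 1 else 0)

lemma frac_le_avg (E : (ι → ℤˣ) → Prop) (f : (ι → ℤˣ) → ℝ) (h0 : ∀ d, 0 ≤ f d)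
    (h1 : ∀ d, E d → 1 ≤ f d) : frac E ≤ avg f := by
  classical
  unfold frac
  refine avg_mono fun d => ?_
  split_ifs with h
  · exact h1 d h
  · exact h0 d

/-- tail bound -/
lemma hw_tail (A : Matrix ι ι ℝ) (b lam η : ℝ) (hlam : 0 ≤ lam) (hb : OB (Aᵀ * A) b)
    (hl : 8 * lam ^ 2 * b ≤ 1 / 16) :
    frac (fun d => η ≤ |nsq (A *ᵥ sv d) - fr A|) ≤
      2 * Real.exp (16 * lam ^ 2 * fr (Aᵀ * A) - lam * η) := by
  have h1 := hw_mgf A b lam hb hl
  have h2 := hw_mgf A b (-lam) hb (by simpa using hl)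
  have h3 : frac (fun d => η ≤ |nsq (A *ᵥ sv d) - fr A|) ≤
      avg (fun d => Real.exp (- lam * η) * (Real.exp (lam * (nsq (A *ᵥ sv d) - fr A)) +
        Real.exp (- lam * (nsq (A *ᵥ sv d) - fr A)))) := by
    apply frac_le_avg
    · intro d; positivity
    · intro d hd
      rw [mul_add, ← Real.exp_add, ← Real.exp_add]
      rcases le_abs.1 hd with h | h
      · have : 1 ≤ Real.exp (- lam * η + lam * (nsq (A *ᵥ sv d) - fr A)) := by
          apply Real.one_le_exp; nlinarith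
        linarith [Real.exp_pos (- lam * η + - lam * (nsq (A *ᵥ sv d) - fr A))]
      · have : 1 ≤ Real.exp (- lam * η + - lam * (nsq (A *ᵥ sv d) - fr A)) := by
          apply Real.one_le_exp; nlinarith
        linarith [Real.exp_pos (- lam * η + lam * (nsq (A *ᵥ sv d) - fr A))]
  refine h3.trans ?_
  rw [avg_mul_left, avg_add]
  have h4 : (-lam) ^ 2 = lam ^ 2 := by ring
  rw [h4] at h2
  calc Real.exp (- lam * η) * (avg (fun d => Real.exp (lam * (nsq (A *ᵥ sv d) - fr A))) +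
        avg (fun d => Real.exp (- lam * (nsq (A *ᵥ sv d) - fr A))))
      ≤ Real.exp (- lam * η) * (Real.exp (16 * lam ^ 2 * fr (Aᵀ * A)) + Real.exp (16 * lam ^ 2 * fr (Aᵀ * A))) :=
        mul_le_mul_of_nonneg_left (add_le_add h1 h2) (Real.exp_pos _).le
    _ = 2 * Real.exp (16 * lam ^ 2 * fr (Aᵀ * A) - lam * η) := by
        rw [sub_eq_add_neg, Real.exp_add]; ring_nf

end SRHT
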