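import Pool.Agent.Lib.SRHT.HW

/-!
A finite net of the unit ball of `ℝ^r` with at most `(4 e^16)^r` points, and the comparison of a
quadratic form on the ball and on the net.
-/

open Finset Matrix
open scoped BigOperators

namespace SRHT

/-- nonnegative integer vectors with `Σ m_i^2 ≤ 16 r` -/
def natNet (r : ℕ) : Finset (Fin r → ℕ) :=
  (Fintype.piFinset fun _ => Finset.range (16 * r + 1)).filter fun m => ∑ i, m i ^ 2 ≤ 16 * r

/-- the index set of the net -/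
def net (r : ℕ) : Finset ((Fin r → ℤˣ) × (Fin r → ℕ)) := Finset.univ ×ˢ natNet r

/-- the points of the net -/
noncomputable def pt {r : ℕ} (p : (Fin r → ℤˣ) × (Fin r → ℕ)) : Fin r → ℝ :=
  fun i => sv p.1 i * (p.2 i : ℝ) / (4 * Real.sqrt r)

lemma natNet_card (r : ℕ) : ((natNet r).card : ℝ) ≤ (2 * Real.exp 16) ^ r := by
  classical
  have h1 : ((natNet r).card : ℝ) ≤ ∑ m ∈ Fintype.piFinset (fun _ : Fin r => Finset.range (16 * r + 1)),
      Real.exp (16 * r) * ∏ i, (1 / 2 : ℝ) ^ (m i) := by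
    have : ((natNet r).card : ℝ) = ∑ m ∈ natNet r, (1 : ℝ) := by simp
    rw [this]
    have h2 : ∀ m ∈ natNet r, (1 : ℝ) ≤ Real.exp (16 * r) * ∏ i, (1 / 2 : ℝ) ^ (m i) := by
      intro m hm
      have hm' := (Finset.mem_filter.1 hm).2
      have h3 : ∀ i, Real.exp (-((m i : ℝ) ^ 2)) ≤ (1 / 2 : ℝ) ^ (m i) := by
        intro i
        have h4 : Real.exp (-1) ≤ 1 / 2 := by
          have := Real.exp_one_gt_d9
          rw [Real.exp_neg]
          rw [one_div]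
          apply inv_anti₀ (by norm_num) (by linarith)
        have h5 : (m i : ℝ) ≤ (m i : ℝ) ^ 2 := by
          rcases Nat.eq_zero_or_pos (m i) with h | h
          · rw [h]; simp
          · have : (1 : ℝ) ≤ (m i : ℝ) := by exact_mod_cast h
            nlinarith
        calc Real.exp (-((m i : ℝ) ^ 2)) ≤ Real.exp (-(m i : ℝ)) := Real.exp_le_exp.2 (by linarith)
          _ = Real.exp (-1) ^ (m i) := by rw [← Real.exp_nat_mul]; ring_nf
          _ ≤ _ := pow_le_pow_left₀ (Real.exp_pos _).le h4 _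
      have h6 : ∏ i, Real.exp (-((m i : ℝ) ^ 2)) ≤ ∏ i, (1 / 2 : ℝ) ^ (m i) :=
        Finset.prod_le_prod (fun i _ => (Real.exp_pos _).le) fun i _ => h3 i
      have h7 : (1 : ℝ) ≤ Real.exp (16 * r) * ∏ i, Real.exp (-((m i : ℝ) ^ 2)) := by
        rw [← Real.exp_sum, ← Real.exp_add]
        apply Real.one_le_exp
        have : (∑ i, (m i : ℝ) ^ 2) ≤ 16 * r := by exact_mod_cast hm'
        rw [Finset.sum_neg_distrib]; linarith
      exact h7.trans (mul_le_mul_of_nonneg_left h6 (Real.exp_pos _).le)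
    refine (Finset.sum_le_sum h2).trans ?_
    refine Finset.sum_le_sum_of_subset_of_nonneg (Finset.filter_subset _ _) ?_
    intro m _ _; positivity
  refine h1.trans ?_
  rw [← Finset.mul_sum]
  have h8 : ∑ m ∈ Fintype.piFinset (fun _ : Fin r => Finset.range (16 * r + 1)), ∏ i, (1 / 2 : ℝ) ^ (m i)
      = ∏ _i : Fin r, ∑ j ∈ Finset.range (16 * r + 1), (1 / 2 : ℝ) ^ j :=
    (Finset.prod_univ_sum (fun _ : Fin r => Finset.range (16 * r + 1)) (fun _ j => (1 / 2 : ℝ) ^ j)).symm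
  rw [h8]
  have h9 : ∑ j ∈ Finset.range (16 * r + 1), (1 / 2 : ℝ) ^ j ≤ 2 := by
    have := Summable.sum_le_tsum (f := fun j : ℕ => (1 / 2 : ℝ) ^ j) (Finset.range (16 * r + 1))
      (fun _ _ => by positivity) summable_geometric_two
    rwa [tsum_geometric_two] at this
  have h10 : ∏ _i : Fin r, ∑ j ∈ Finset.range (16 * r + 1), (1 / 2 : ℝ) ^ j ≤ 2 ^ r := by
    rw [Finset.prod_const, Finset.card_univ, Fintype.card_fin]
    exact pow_le_pow_left₀ (Finset.sum_nonneg fun _ _ => by positivity) h9 r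
  calc Real.exp (16 * r) * ∏ _i : Fin r, ∑ j ∈ Finset.range (16 * r + 1), (1 / 2 : ℝ) ^ j
      ≤ Real.exp (16 * r) * 2 ^ r := mul_le_mul_of_nonneg_left h10 (Real.exp_pos _).le
    _ = _ := by
      rw [mul_pow, mul_comm, ← Real.exp_nat_mul, mul_comm (r : ℝ) 16]

lemma net_card (r : ℕ) : ((net r).card : ℝ) ≤ (4 * Real.exp 16) ^ r := by
  unfold net
  rw [Finset.card_product, Finset.card_univ, Fintype.card_fun, Fintype.card_units_int, Fintype.card_fin]
  push_cast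
  have := natNet_card r
  calc (2 : ℝ) ^ r * ((natNet r).card : ℝ) ≤ 2 ^ r * (2 * Real.exp 16) ^ r :=
        mul_le_mul_of_nonneg_left this (by positivity)
    _ = _ := by rw [← mul_pow]; ring_nf

lemma nsq_pt {r : ℕ} (hr : 1 ≤ r) {p : (Fin r → ℤˣ) × (Fin r → ℕ)} (hp : p ∈ net r) :
    nsq (pt p) ≤ 1 := by
  unfold net at hp
  have hm := (Finset.mem_filter.1 (Finset.mem_product.1 hp).2).2
  have hr' : (0 : ℝ) < r := by exact_mod_cast hr
  have hs : Real.sqrt r ^ 2 = r := Real.sq_sqrt hr'.le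
  have h1 : nsq (pt p) = (∑ i, (p.2 i : ℝ) ^ 2) / (16 * r) := by
    unfold nsq pt
    rw [Finset.sum_div]
    refine Finset.sum_congr rfl fun i _ => ?_
    rw [div_pow, mul_pow, mul_pow, sv_sq, hs]; norm_num
  rw [h1, div_le_one (by positivity)]
  exact_mod_cast hm

lemma net_exists {r : ℕ} (hr : 1 ≤ r) (c : Fin r → ℝ) (hc : nsq c ≤ 1) :
    ∃ p ∈ net r, nsq (c - pt p) ≤ 1 / 16 := by
  classical
  have hr' : (0 : ℝ) < r := by exact_mod_cast hr
  have hs : Real.sqrt r ^ 2 = r := Real.sq_sqrt hr'.le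
  have hs0 : 0 < Real.sqrt r := Real.sqrt_pos.2 hr'
  let s : Fin r → ℤˣ := fun i => if 0 ≤ c i then 1 else -1
  let m : Fin r → ℕ := fun i => ⌊4 * Real.sqrt r * |c i|⌋₊
  have hm1 : ∀ i, (m i : ℝ) ≤ 4 * Real.sqrt r * |c i| := fun i => Nat.floor_le (by positivity)
  have hm2 : ∀ i, 4 * Real.sqrt r * |c i| ≤ m i + 1 := fun i => (Nat.lt_floor_add_one _).le
  have hsum : ∑ i, (m i : ℝ) ^ 2 ≤ 16 * r := by
    have : ∀ i, (m i : ℝ) ^ 2 ≤ 16 * r * c i ^ 2 := by
      intro i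
      calc (m i : ℝ) ^ 2 ≤ (4 * Real.sqrt r * |c i|) ^ 2 :=
            pow_le_pow_left₀ (Nat.cast_nonneg _) (hm1 i) 2
        _ = 16 * (Real.sqrt r) ^ 2 * |c i| ^ 2 := by ring
        _ = _ := by rw [hs, sq_abs]
    calc ∑ i, (m i : ℝ) ^ 2 ≤ ∑ i, 16 * r * c i ^ 2 := Finset.sum_le_sum fun i _ => this i
      _ = 16 * r * nsq c := by rw [← Finset.mul_sum]; rfl
      _ ≤ 16 * r * 1 := mul_le_mul_of_nonneg_left hc (by positivity)
      _ = _ := by ring
  have hsumN : ∑ i, m i ^ 2 ≤ 16 * r := by exact_mod_cast hsum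
  refine ⟨(s, m), ?_, ?_⟩
  · unfold net natNet
    rw [Finset.mem_product]
    refine ⟨Finset.mem_univ _, Finset.mem_filter.2 ⟨?_, hsumN⟩⟩
    rw [Fintype.mem_piFinset]
    intro i
    rw [Finset.mem_range]
    have h1 : m i ≤ m i ^ 2 := Nat.le_self_pow (by norm_num) _
    have h2 : m i ^ 2 ≤ ∑ i, m i ^ 2 := Finset.single_le_sum (f := fun i => m i ^ 2) (fun _ _ => Nat.zero_le _) (Finset.mem_univ i)
    have h3 : m i < 16 * r + 1 := by omega
    exact h3
  · have h1 : ∀ i, (c i - pt (s, m) i) ^ 2 ≤ 1 / (16 * r) := by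
      intro i
      have h2 : c i - pt (s, m) i = sv s i * (|c i| - m i / (4 * Real.sqrt r)) := by
        unfold pt
        have : c i = sv s i * |c i| := by
          by_cases h : 0 ≤ c i
          · have : sv s i = 1 := by simp [sv, s, h]
            rw [this, abs_of_nonneg h, one_mul]
          · have h' : sv s i = -1 := by simp [sv, s, h]
            push Not at h
            rw [h', abs_of_neg h]; ring
        conv_lhs => rw [this]
        simp only
        ring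
      rw [h2, mul_pow, sv_sq, one_mul]
      have h3 : |c i| - m i / (4 * Real.sqrt r) = (4 * Real.sqrt r * |c i| - m i) / (4 * Real.sqrt r) := by
        field_simp
      rw [h3, div_pow, mul_pow, hs]
      have h4 := hm1 i
      have h5 := hm2 i
      have h6 : (4 * Real.sqrt r * |c i| - m i) ^ 2 ≤ 1 := by
        nlinarith
      rw [div_le_div_iff₀ (by positivity) (by positivity)]
      nlinarith
    unfold nsq
    calc ∑ i, (c - pt (s, m)) i ^ 2 ≤ ∑ _i : Fin r, 1 / (16 * (r : ℝ)) :=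
          Finset.sum_le_sum fun i _ => h1 i
      _ = 1 / 16 := by
        rw [Finset.sum_const, Finset.card_univ, Fintype.card_fin, nsmul_eq_mul]
        field_simp

section quad

variable {r : ℕ} (W : Matrix (Fin r) (Fin r) ℝ)

lemma quad_trivial (c : Fin r → ℝ) : |c ⬝ᵥ (W *ᵥ c)| ≤ (∑ i, ∑ j, |W i j|) * nsq c := by
  have h1 : c ⬝ᵥ (W *ᵥ c) = ∑ i, ∑ j, W i j * (c i * c j) := by
    unfold dotProduct Matrix.mulVec dotProduct
    refine Finset.sum_congr rfl fun i _ => ?_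
    rw [Finset.mul_sum]
    refine Finset.sum_congr rfl fun j _ => ?_
    ring
  rw [h1, Finset.sum_mul]
  refine (Finset.abs_sum_le_sum_abs _ _).trans (Finset.sum_le_sum fun i _ => ?_)
  rw [Finset.sum_mul]
  refine (Finset.abs_sum_le_sum_abs _ _).trans (Finset.sum_le_sum fun j _ => ?_)
  rw [abs_mul]
  refine mul_le_mul_of_nonneg_left ?_ (abs_nonneg _)
  have h2 : c i ^ 2 ≤ nsq c := Finset.single_le_sum (f := fun i => c i ^ 2) (fun _ _ => sq_nonneg _) (Finset.mem_univ i)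
  have h3 : c j ^ 2 ≤ nsq c := Finset.single_le_sum (f := fun i => c i ^ 2) (fun _ _ => sq_nonneg _) (Finset.mem_univ j)
  rw [abs_le]
  constructor
  · nlinarith [sq_nonneg (c i + c j)]
  · nlinarith [sq_nonneg (c i - c j)]

lemma quad_polar (hW : Wᵀ = W) (u v : Fin r → ℝ) :
    (u + v) ⬝ᵥ (W *ᵥ (u + v)) - (u - v) ⬝ᵥ (W *ᵥ (u - v)) = 4 * (u ⬝ᵥ (W *ᵥ v)) := by
  have hs : v ⬝ᵥ (W *ᵥ u) = u ⬝ᵥ (W *ᵥ v) := by
    rw [Matrix.dotProduct_mulVec, ← Matrix.mulVec_transpose, hW, dotProduct_comm]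
  simp only [Matrix.mulVec_add, Matrix.mulVec_sub, dotProduct_add, add_dotProduct, dotProduct_sub,
    sub_dotProduct]
  rw [hs]; ring

lemma quad_diff (hW : Wᵀ = W) (c p : Fin r → ℝ) :
    c ⬝ᵥ (W *ᵥ c) - p ⬝ᵥ (W *ᵥ p) = (c - p) ⬝ᵥ (W *ᵥ (c + p)) := by
  have hs : p ⬝ᵥ (W *ᵥ c) = c ⬝ᵥ (W *ᵥ p) := by
    rw [Matrix.dotProduct_mulVec, ← Matrix.mulVec_transpose, hW, dotProduct_comm]
  simp only [Matrix.mulVec_add, dotProduct_add, sub_dotProduct]
  rw [hs]; ring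

lemma nsq_add_sub (u v : Fin r → ℝ) : nsq (u + v) + nsq (u - v) = 2 * (nsq u + nsq v) := by
  unfold nsq
  rw [← Finset.sum_add_distrib, ← Finset.sum_add_distrib, Finset.mul_sum]
  refine Finset.sum_congr rfl fun i _ => ?_
  simp only [Pi.add_apply, Pi.sub_apply]; ring

lemma quad_step (hr : 1 ≤ r) (hW : Wᵀ = W) (η Q : ℝ)
    (hη : ∀ p ∈ net r, |pt p ⬝ᵥ (W *ᵥ pt p)| ≤ η) (hQ0 : 0 ≤ Q)
    (hQ : ∀ c, |c ⬝ᵥ (W *ᵥ c)| ≤ Q * nsq c) (c : Fin r → ℝ) :
    |c ⬝ᵥ (W *ᵥ c)| ≤ (η + 145 / 288 * Q) * nsq c := by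
  -- the case of the unit ball
  have key : ∀ c : Fin r → ℝ, nsq c ≤ 1 → |c ⬝ᵥ (W *ᵥ c)| ≤ η + 145 / 288 * Q := by
    intro c hc
    obtain ⟨p, hp, hcp⟩ := net_exists hr c hc
    have hp1 := nsq_pt hr hp
    set x := pt p with hx
    have h1 := quad_diff W hW c x
    have h2 := quad_polar W hW ((3 : ℝ) • (c - x)) ((1 / 3 : ℝ) • (c + x))
    have h3 : ((3 : ℝ) • (c - x)) ⬝ᵥ (W *ᵥ ((1 / 3 : ℝ) • (c + x))) = (c - x) ⬝ᵥ (W *ᵥ (c + x)) := by
      rw [Matrix.mulVec_smul, dotProduct_smul, smul_dotProduct]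
      simp only [smul_eq_mul]; ring
    rw [h3] at h2
    have h4 := hQ ((3 : ℝ) • (c - x) + (1 / 3 : ℝ) • (c + x))
    have h5 := hQ ((3 : ℝ) • (c - x) - (1 / 3 : ℝ) • (c + x))
    have h6 := nsq_add_sub ((3 : ℝ) • (c - x)) ((1 / 3 : ℝ) • (c + x))
    rw [nsq_smul, nsq_smul] at h6
    have h7 : nsq (c + x) ≤ 4 := by
      have := nsq_add_sub c x
      have := nsq_nonneg (c - x)
      linarith
    have h8 := hη p hp
    rw [← hx] at h8
    rw [abs_le] at h4 h5 h8 ⊢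
    have h9 : Q * nsq ((3 : ℝ) • (c - x) + (1 / 3 : ℝ) • (c + x)) + Q * nsq ((3 : ℝ) • (c - x) - (1 / 3 : ℝ) • (c + x))
        ≤ Q * (145 / 72) := by
      rw [← mul_add, h6]
      apply mul_le_mul_of_nonneg_left _ hQ0
      linarith
    constructor <;> linarith [h4.1, h4.2, h5.1, h5.2, h8.1, h8.2]
  rcases (nsq_nonneg c).eq_or_lt with h0 | h0
  · have := hQ c
    rw [← h0] at this ⊢
    simpa using this
  · have hs : Real.sqrt (nsq c) ^ 2 = nsq c := Real.sq_sqrt h0.le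
    have hs0 : 0 < Real.sqrt (nsq c) := Real.sqrt_pos.2 h0
    have h1 := key ((Real.sqrt (nsq c))⁻¹ • c) (by
      rw [nsq_smul, inv_pow, hs, inv_mul_cancel₀ h0.ne'])
    rw [Matrix.mulVec_smul, dotProduct_smul, smul_dotProduct] at h1
    simp only [smul_eq_mul] at h1
    rw [← mul_assoc, ← sq, inv_pow, hs, abs_mul, abs_of_pos (inv_pos.2 h0)] at h1
    rw [inv_mul_le_iff₀ h0] at h1
    linarith

lemma quad_sup (hr : 1 ≤ r) (hW : Wᵀ = W) (η : ℝ) (hη0 : 0 ≤ η)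
    (hη : ∀ p ∈ net r, |pt p ⬝ᵥ (W *ᵥ pt p)| ≤ η) (c : Fin r → ℝ) :
    |c ⬝ᵥ (W *ᵥ c)| ≤ 288 / 143 * η * nsq c := by
  set Q0 := ∑ i, ∑ j, |W i j| with hQ0
  have hQ00 : 0 ≤ Q0 := Finset.sum_nonneg fun _ _ => Finset.sum_nonneg fun _ _ => abs_nonneg _
  have h1 : ∀ t : ℕ, ∀ c, |c ⬝ᵥ (W *ᵥ c)| ≤ (288 / 143 * η + (145 / 288) ^ t * Q0) * nsq c := by
    intro t
    induction t with
    | zero =>
      intro c
      refine (quad_trivial W c).trans ?_
      apply mul_le_mul_of_nonneg_right _ (nsq_nonneg c)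
      rw [pow_zero, one_mul]; linarith
    | succ t ih =>
      intro c
      have := quad_step W hr hW η _ hη (by positivity) ih c
      refine this.trans (le_of_eq ?_)
      rw [pow_succ]; ring
  have h2 : Filter.Tendsto (fun t : ℕ => (288 / 143 * η + (145 / 288 : ℝ) ^ t * Q0) * nsq c)
      Filter.atTop (nhds ((288 / 143 * η + 0 * Q0) * nsq c)) := by
    refine Filter.Tendsto.mul_const _ (Filter.Tendsto.const_add _ (Filter.Tendsto.mul_const _ ?_))
    exact tendsto_pow_atTop_nhds_zero_of_lt_one (by norm_num) (by norm_num)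
  have h3 := ge_of_tendsto' h2 (fun t => h1 t c)
  simpa using h3

end quad

end SRHT
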