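import Mathlib

/-!
Averages over sign vectors (finite uniform probability) and the decoupling step of the
Hanson-Wright inequality for signs.
-/

open Finset Matrix
open scoped BigOperators

namespace SRHT

variable {ι : Type*} [Fintype ι] [DecidableEq ι]

/-- the real sign vector of a vector of units of `ℤ` -/
def sv (d : ι → ℤˣ) : ι → ℝ := fun i => ((d i : ℤ) : ℝ)

/-- average over all sign vectors -/
noncomputable def avg (f : (ι → ℤˣ) → ℝ) : ℝ := (∑ d, f d) / (Fintype.card (ι → ℤˣ) : ℝ)

omit [Fintype ι] [DecidableEq ι] in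
lemma unit_cases (u : ℤˣ) : ((u : ℤ) : ℝ) = 1 ∨ ((u : ℤ) : ℝ) = -1 := by
  rcases Int.units_eq_one_or u with h | h <;> simp [h]

omit [Fintype ι] [DecidableEq ι] in
lemma sv_mul_self (d : ι → ℤˣ) (i : ι) : sv d i * sv d i = 1 := by
  unfold sv; rcases unit_cases (d i) with h | h <;> rw [h] <;> norm_num

omit [Fintype ι] [DecidableEq ι] in
lemma sv_sq (d : ι → ℤˣ) (i : ι) : sv d i ^ 2 = 1 := by
  rw [sq, sv_mul_self]

omit [Fintype ι] [DecidableEq ι] in
lemma sv_mul (d e : ι → ℤˣ) (i : ι) : sv (d * e) i = sv d i * sv e i := by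
  unfold sv; simp

lemma card_pos' : (0 : ℝ) < (Fintype.card (ι → ℤˣ) : ℝ) := by
  exact_mod_cast Fintype.card_pos

lemma avg_mul_right (f : (ι → ℤˣ) → ℝ) (e : ι → ℤˣ) : avg (fun d => f (d * e)) = avg f := by
  unfold avg
  congr 1
  exact Fintype.sum_equiv (Equiv.mulRight e) _ _ (fun d => rfl)

lemma avg_const (c : ℝ) : avg (fun _ : ι → ℤˣ => c) = c := by
  unfold avg
  rw [Finset.sum_const, Finset.card_univ, nsmul_eq_mul]
  field_simp

lemma avg_add (f g : (ι → ℤˣ) → ℝ) : avg (fun d => f d + g d) = avg f + avg g := by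
  unfold avg; rw [Finset.sum_add_distrib, add_div]

lemma avg_sub (f g : (ι → ℤˣ) → ℝ) : avg (fun d => f d - g d) = avg f - avg g := by
  unfold avg; rw [Finset.sum_sub_distrib, sub_div]

lemma avg_mul_left (c : ℝ) (f : (ι → ℤˣ) → ℝ) : avg (fun d => c * f d) = c * avg f := by
  unfold avg; rw [← Finset.mul_sum, mul_div_assoc]

lemma avg_sum {κ : Type*} (s : Finset κ) (f : κ → (ι → ℤˣ) → ℝ) :
    avg (fun d => ∑ k ∈ s, f k d) = ∑ k ∈ s, avg (f k) := by
  unfold avg; rw [Finset.sum_comm, Finset.sum_div]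

lemma avg_mono {f g : (ι → ℤˣ) → ℝ} (h : ∀ d, f d ≤ g d) : avg f ≤ avg g := by
  unfold avg
  exact div_le_div_of_nonneg_right (Finset.sum_le_sum fun d _ => h d) card_pos'.le

lemma avg_nonneg {f : (ι → ℤˣ) → ℝ} (h : ∀ d, 0 ≤ f d) : 0 ≤ avg f := by
  unfold avg; exact div_nonneg (Finset.sum_nonneg fun d _ => h d) card_pos'.le

lemma avg_comm {κ : Type*} [Fintype κ] [DecidableEq κ] (f : (ι → ℤˣ) → (κ → ℤˣ) → ℝ) :
    avg (fun d => avg (f d)) = avg (fun e => avg (fun d => f d e)) := by
  unfold avg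
  rw [← Finset.sum_div, ← Finset.sum_div, Finset.sum_comm, div_right_comm]

/-- a function which changes sign under a translation has mean zero -/
lemma avg_eq_zero_of_flip (f : (ι → ℤˣ) → ℝ) (e : ι → ℤˣ) (h : ∀ d, f (d * e) = - f d) :
    avg f = 0 := by
  have h1 := avg_mul_right f e
  simp_rw [h] at h1
  have h2 : avg (fun d => - f d) = - avg f := by
    have := avg_mul_left (-1) f
    simpa using this
  linarith

/-- product formula -/
lemma avg_prod (f : ι → ℤˣ → ℝ) :
    avg (fun d => ∏ i, f i (d i)) = ∏ i, ((f i 1 + f i (-1)) / 2) := by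
  unfold avg
  have h1 : ∑ d : ι → ℤˣ, ∏ i, f i (d i) = ∏ i, ∑ s : ℤˣ, f i s := by
    rw [Finset.prod_univ_sum, Fintype.piFinset_univ]
  have h2 : ∀ i, ∑ s : ℤˣ, f i s = f i 1 + f i (-1) := by
    intro i
    rw [UnitsInt.univ, Finset.sum_pair (by decide)]
  rw [h1, Finset.prod_div_distrib, Fintype.card_fun]
  simp_rw [h2]
  simp

lemma avg_exp (a : ι → ℝ) :
    avg (fun d => Real.exp (∑ i, sv d i * a i)) = ∏ i, Real.cosh (a i) := by
  have := avg_prod (fun i s => Real.exp (((s : ℤ) : ℝ) * a i))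
  simp_rw [Real.exp_sum]
  unfold sv
  rw [this]
  refine Finset.prod_congr rfl fun i _ => ?_
  rw [Real.cosh_eq]; simp

lemma avg_exp_le (a : ι → ℝ) :
    avg (fun d => Real.exp (∑ i, sv d i * a i)) ≤ Real.exp ((∑ i, a i ^ 2) / 2) := by
  rw [avg_exp, Finset.sum_div, Real.exp_sum]
  exact Finset.prod_le_prod (fun i _ => (Real.cosh_pos _).le)
    (fun i _ => Real.cosh_le_exp_half_sq _)

/-- Jensen for exp -/
lemma exp_avg_le (f : (ι → ℤˣ) → ℝ) : Real.exp (avg f) ≤ avg (fun d => Real.exp (f d)) := by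
  set m := avg f with hm
  have h1 : ∀ d, Real.exp m * (1 + (f d - m)) ≤ Real.exp (f d) := by
    intro d
    have : Real.exp (f d) = Real.exp m * Real.exp (f d - m) := by
      rw [← Real.exp_add]; ring_nf
    rw [this]
    have := Real.add_one_le_exp (f d - m)
    exact mul_le_mul_of_nonneg_left (by linarith) (Real.exp_pos _).le
  have h2 := avg_mono h1
  have h3 : avg (fun d => Real.exp m * (1 + (f d - m))) = Real.exp m := by
    rw [avg_mul_left, avg_add, avg_sub, avg_const, avg_const, ← hm]; ring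
  linarith

/-- the averages of the coordinates -/
lemma avg_sv (i : ι) : avg (fun d => sv d i) = 0 := by
  refine avg_eq_zero_of_flip _ (fun _ => -1) ?_
  intro d
  rw [sv_mul]; unfold sv; simp

lemma avg_sv_mul {i j : ι} (hij : i ≠ j) : avg (fun d => sv d i * sv d j) = 0 := by
  refine avg_eq_zero_of_flip _ (Function.update 1 i (-1)) ?_
  intro d
  rw [sv_mul, sv_mul]
  have h1 : sv (Function.update (1 : ι → ℤˣ) i (-1)) i = -1 := by unfold sv; simp
  have h2 : sv (Function.update (1 : ι → ℤˣ) i (-1)) j = 1 := by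
    unfold sv; rw [Function.update_of_ne hij.symm]; simp
  rw [h1, h2]; ring

/-- selectors -/
noncomputable def psel (e : ι → ℤˣ) (i : ι) : ℝ := (1 + sv e i) / 2
noncomputable def qsel (e : ι → ℤˣ) (i : ι) : ℝ := (1 - sv e i) / 2

lemma avg_psel_qsel (i j : ι) :
    4 * avg (fun e => psel e i * qsel e j) = if i = j then 0 else 1 := by
  unfold psel qsel
  split_ifs with h
  · subst h
    have : ∀ e : ι → ℤˣ, (1 + sv e i) / 2 * ((1 - sv e i) / 2) = 0 := by
      intro e
      have := sv_mul_self e i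
      nlinarith
    simp_rw [this, avg_const]; simp
  · have h1 : ∀ e : ι → ℤˣ, (1 + sv e i) / 2 * ((1 - sv e j) / 2)
        = 1 / 4 * ((1 + sv e i) - (sv e j + sv e i * sv e j)) := by
      intro e; ring
    simp_rw [h1]
    rw [avg_mul_left, avg_sub, avg_add, avg_add, avg_const, avg_sv, avg_sv, avg_sv_mul h]
    norm_num

omit [Fintype ι] [DecidableEq ι] in
lemma sel_cases (e : ι → ℤˣ) (i : ι) :
    (e i = 1 ∧ psel e i = 1 ∧ qsel e i = 0) ∨ (e i = -1 ∧ psel e i = 0 ∧ qsel e i = 1) := by
  unfold psel qsel sv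
  rcases Int.units_eq_one_or (e i) with h | h
  · left; rw [h]; simp
  · right; rw [h]; norm_num

/-- one decoupling step -/
lemma one_step (B : Matrix ι ι ℝ) (M : ℝ)
    (hM : ∀ e : ι → ℤˣ, avg (fun d => Real.exp (8 * ∑ i, (psel e i * ∑ j, B i j * (qsel e j * sv d j)) ^ 2)) ≤ M) :
    avg (fun d => Real.exp ((∑ i, ∑ j, B i j * (sv d i * sv d j)) - ∑ i, B i i)) ≤ M := by
  -- the exponent is an average over selectors
  have h1 : ∀ d : ι → ℤˣ, (∑ i, ∑ j, B i j * (sv d i * sv d j)) - ∑ i, B i i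
      = avg (fun e => 4 * ∑ i, ∑ j, psel e i * qsel e j * (B i j * (sv d i * sv d j))) := by
    intro d
    rw [avg_mul_left, avg_sum]
    simp_rw [avg_sum]
    have h2 : ∀ i j : ι, avg (fun e => psel e i * qsel e j * (B i j * (sv d i * sv d j)))
        = (B i j * (sv d i * sv d j)) * avg (fun e => psel e i * qsel e j) := by
      intro i j
      rw [← avg_mul_left]; congr 1; funext e; ring
    simp_rw [h2]
    rw [Finset.mul_sum, ← Finset.sum_sub_distrib]
    refine Finset.sum_congr rfl fun i _ => ?_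
    rw [Finset.mul_sum]
    have h3 : ∀ j, 4 * (B i j * (sv d i * sv d j) * avg (fun e => psel e i * qsel e j))
        = B i j * (sv d i * sv d j) - (if i = j then B i j else 0) := by
      intro j
      have := avg_psel_qsel i j
      split_ifs at this ⊢ with h
      · subst h
        rw [sv_mul_self]
        linear_combination (B i i) * this
      · linear_combination (B i j * (sv d i * sv d j)) * this
    simp_rw [h3]
    rw [Finset.sum_sub_distrib]
    simp
  simp_rw [h1]
  have h4 : avg (fun d => Real.exp (avg (fun e => 4 * ∑ i, ∑ j, psel e i * qsel e j * (B i j * (sv d i * sv d j)))))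
      ≤ avg (fun d : ι → ℤˣ => avg (fun e : ι → ℤˣ => Real.exp (4 * ∑ i, ∑ j, psel e i * qsel e j * (B i j * (sv d i * sv d j))))) :=
    avg_mono fun d => exp_avg_le _
  refine h4.trans ?_
  rw [avg_comm]
  -- for each fixed selector
  have h5 : ∀ e : ι → ℤˣ, avg (fun d : ι → ℤˣ => Real.exp (4 * ∑ i, ∑ j, psel e i * qsel e j * (B i j * (sv d i * sv d j)))) ≤ M := by
    intro e
    refine le_trans ?_ (hM e)
    set g : (ι → ℤˣ) → ℝ := fun d => Real.exp (4 * ∑ i, ∑ j, psel e i * qsel e j * (B i j * (sv d i * sv d j))) with hg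
    -- resampling
    let σI : (ι → ℤˣ) → (ι → ℤˣ) := fun σ i => if e i = 1 then σ i else 1
    have h6 : avg g = avg (fun d => avg (fun σ => g (d * σI σ))) := by
      rw [avg_comm]
      have : ∀ σ : ι → ℤˣ, avg (fun d => g (d * σI σ)) = avg g := fun σ => avg_mul_right g (σI σ)
      simp_rw [this, avg_const]
    rw [h6]
    refine avg_mono fun d => ?_
    -- inner average
    have h7 : ∀ σ : ι → ℤˣ, g (d * σI σ)
        = Real.exp (∑ i, sv σ i * (4 * (psel e i * sv d i * ∑ j, B i j * (qsel e j * sv d j)))) := by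
      intro σ
      rw [hg]
      simp only
      congr 1
      rw [Finset.mul_sum]
      refine Finset.sum_congr rfl fun i _ => ?_
      rw [Finset.mul_sum, Finset.mul_sum, Finset.mul_sum, Finset.mul_sum]
      refine Finset.sum_congr rfl fun j _ => ?_
      rw [sv_mul, sv_mul]
      have hi : psel e i * sv (σI σ) i = psel e i * sv σ i := by
        rcases sel_cases e i with ⟨h, h', _⟩ | ⟨h, h', _⟩
        · congr 1; simp [σI, sv, h]
        · rw [h']; simp
      have hj : qsel e j * sv (σI σ) j = qsel e j := by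
        rcases sel_cases e j with ⟨h, _, h'⟩ | ⟨h, _, h'⟩
        · rw [h']; simp
        · have : sv (σI σ) j = 1 := by
            simp [σI, sv, h]
          rw [this]; ring
      calc 4 * (psel e i * qsel e j * (B i j * (sv d i * sv (σI σ) i * (sv d j * sv (σI σ) j))))
          = 4 * ((psel e i * sv (σI σ) i) * (qsel e j * sv (σI σ) j) * (B i j * (sv d i * sv d j))) := by ring
        _ = _ := by rw [hi, hj]; ring
    simp_rw [h7]
    refine (avg_exp_le _).trans ?_
    refine Real.exp_le_exp.2 (le_of_eq ?_)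
    rw [Finset.mul_sum, Finset.sum_div]
    refine Finset.sum_congr rfl fun i _ => ?_
    have := sv_sq d i
    calc (4 * (psel e i * sv d i * ∑ j, B i j * (qsel e j * sv d j))) ^ 2 / 2
        = 8 * (psel e i * ∑ j, B i j * (qsel e j * sv d j)) ^ 2 * (sv d i ^ 2) := by ring
      _ = _ := by rw [this, mul_one]
  have h8 := avg_mono h5
  rwa [avg_const] at h8

end SRHT
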